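import Pool.Agent.Work.MP_d4a230_co.C.Defs

namespace Pool.Agent.Work.MP_d4a230_co

/-- Every nonempty set `U` of vertices outside `F` has a vertex with at most `D` neighbours (in `H`)
among the vertices of `F` and `U`. -/
def DegenerateOver {W : Type} {H : SimpleGraph W} (F : H.Subgraph) (D : ℕ) : Prop :=
  ∀ U : Set W, U.Nonempty → Disjoint U F.verts →
    ∃ u ∈ U, (H.neighborSet u ∩ (F.verts ∪ U)).ncard ≤ D

end Pool.Agent.Work.MP_d4a230_co
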