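import Pool.Agent.Work.MP_d4a230_co.C.Main
import Pool.Agent.Work.MP_d4a230_co.C.DegDefs

/-!
From subgraphs to the counting form.
-/

namespace Pool.Agent.Work.MP_d4a230_co.U

open Finset Filter Topology Pool.Agent.Work.MP_07f1b5_pr
open scoped BigOperators

set_option linter.unusedSectionVars false

variable {W W0 : Type} [Fintype W] [DecidableEq W] [Fintype W0] [DecidableEq W0]
  {H : SimpleGraph W} [DecidableRel H.Adj] {F : SimpleGraph W0} [DecidableRel F.Adj]
  {φ : W0 ↪ W} {S : H.Subgraph}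

lemma cr_edges (hv : S.verts = (univ.map φ : Finset W)) (ha : ∀ a b, F.Adj a b ↔ S.Adj (φ a) (φ b)) :
    S.edgeSet.ncard = F.edgeFinset.card := by
  rw [← card_image_of_injective F.edgeFinset (Sym2.map.injective φ.injective),
    ← Set.ncard_coe_finset]
  congr 1
  ext e
  induction e using Sym2.ind with
  | _ a b =>
    rw [SimpleGraph.Subgraph.mem_edgeSet, mem_coe, mem_image]
    constructor
    · intro h
      obtain ⟨x, -, rfl⟩ := mem_map.1 (mem_coe.1 (hv ▸ S.edge_vert h))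
      obtain ⟨z, -, rfl⟩ := mem_map.1 (mem_coe.1 (hv ▸ S.edge_vert h.symm))
      exact ⟨s(x, z), by simpa using (ha x z).2 h, rfl⟩
    · rintro ⟨g, hg, e⟩
      induction g using Sym2.ind with
      | _ x z =>
        rw [← SimpleGraph.Subgraph.mem_edgeSet, ← e]
        exact (ha x z).1 (by simpa using hg)

theorem cr_core (hv : S.verts = (univ.map φ : Finset W))
    (ha : ∀ a b, F.Adj a b ↔ S.Adj (φ a) (φ b)) (hS : UniqueDensest S) (hm : 1 < twoDensity H) :
    Core H F φ ∧
      twoDensity H = ((F.edgeFinset.card : ℝ) - 1) / ((Fintype.card W0 : ℝ) - 2) := by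
  have v1 : S.verts.ncard = Fintype.card W0 := by rw [hv, Set.ncard_coe_finset, card_map, card_univ]
  have r1 : twoRatio S = ((F.edgeFinset.card : ℝ) - 1) / ((Fintype.card W0 : ℝ) - 2) := by
    rw [twoRatio, v1, cr_edges hv ha]
  have h3 : 3 ≤ Fintype.card W0 := v1 ▸ hS.1
  have h3' : (3 : ℝ) ≤ Fintype.card W0 := by exact_mod_cast h3
  have r2 : twoDensity H = twoRatio S := by
    refine IsGreatest.csSup_eq ⟨⟨S, hS.1, rfl⟩, ?_⟩
    rintro _ ⟨T, h1, rfl⟩
    by_cases h : T = S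
    · rw [h]
    · exact (hS.2 T h h1).le
  have e1 : ∀ U : Finset W, ((⊤ : H.Subgraph).induce (U : Set W)).verts.ncard = U.card :=
    fun U => by simp
  have e2 : ∀ U : Finset W,
      ((⊤ : H.Subgraph).induce (U : Set W)).edgeSet.ncard = ein H.edgeFinset U := fun U => by
    unfold ein
    rw [← Set.ncard_coe_finset]
    congr 1
    ext e
    induction e using Sym2.ind with
    | _ a b => simp [Finset.subset_iff]; tauto
  have e3 : (⊤ : H.Subgraph).induce S.verts = S := by
    by_contra h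
    have a1 := hS.2 _ h hS.1
    have a2 : S.edgeSet.ncard ≤ ((⊤ : H.Subgraph).induce S.verts).edgeSet.ncard :=
      Set.ncard_le_ncard (SimpleGraph.Subgraph.edgeSet_mono SimpleGraph.Subgraph.le_induce_top_verts)
    rw [twoRatio, twoRatio, SimpleGraph.Subgraph.induce_verts, v1,
      div_lt_div_iff_of_pos_right (by linarith only [h3']), sub_lt_sub_iff_right,
      Nat.cast_lt] at a1
    omega
  rw [r2, r1] at hm ⊢
  refine ⟨⟨fun a b => ?_, h3, ?_, fun U u1 u2 => ?_⟩, rfl⟩
  · rw [ha, ← e3]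
    have : ∀ a, φ a ∈ S.verts := fun a => hv ▸ mem_coe.2 (mem_map_of_mem φ (mem_univ a))
    simp [this]
  · rw [one_lt_div (by linarith only [h3'])] at hm
    have : (Fintype.card W0 : ℝ) < F.edgeFinset.card + 1 := by linarith only [hm]
    have : Fintype.card W0 < F.edgeFinset.card + 1 := by exact_mod_cast this
    omega
  · have a1 := hS.2 ((⊤ : H.Subgraph).induce (U : Set W)) (fun h => u2 (coe_injective
      (hv ▸ congrArg SimpleGraph.Subgraph.verts h))) (by rw [e1]; exact u1)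
    have u3 : (3 : ℝ) ≤ U.card := by exact_mod_cast u1
    rw [r1, twoRatio, e1, e2,
      div_lt_div_iff₀ (by linarith only [u3]) (by linarith only [h3'])] at a1
    exact_mod_cast a1

theorem cr_edeg (hv : S.verts = (univ.map φ : Finset W)) {D : ℕ} (hD : DegenerateOver S D) :
    EDeg H φ D := by
  intro U h1 h2
  obtain ⟨u, hu, h⟩ := hD U h1 (hv ▸ disjoint_coe.2 h2)
  refine ⟨u, hu, le_trans ?_ h⟩
  have e : H.neighborSet u ∩ (S.verts ∪ U) =
      (univ.filter fun b => H.Adj u b ∧ b ∈ univ.map φ ∪ U : Finset W) := by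
    ext b
    simp [hv]
  rw [e, Set.ncard_coe_finset]
  refine le_trans (card_le_card fun g hg => ?_) (card_image_le (f := fun b => s(u, b)))
  obtain ⟨a1, a2, a3⟩ := mem_filter.1 hg
  obtain ⟨b, rfl⟩ := Sym2.mem_iff_exists.1 a3
  exact mem_image.2 ⟨b, mem_filter.2 ⟨mem_univ _, by simpa using a1,
    a2 (Sym2.mem_toFinset.2 (Sym2.mem_mk_right _ _))⟩, rfl⟩

lemma cr_verts (S : H.Subgraph) [Fintype S.verts] :
    S.verts = (univ.map (Function.Embedding.subtype (· ∈ S.verts)) : Finset W) := by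
  ext a
  simp

theorem cr_eq (C : Core H F φ) {D : ℕ} (hD : EDeg H φ D) (D1 : 1 ≤ D) {p : ℕ → unitInterval}
    {K0 : ℕ} {c : ℝ} (hc : 0 < c)
    (R0 : HReg (fun n => p n) (fun n => copies F (Fin n)) (Fintype.card W0) F.edgeFinset.card K0
      (copyRate F c) (c ^ (F.edgeFinset.card - 1))) (h : 1 - 1 / (D : ℝ) ≤ chromThreshold F p) :
    chromThreshold H p = chromThreshold F p := by
  have h1 := cr_main C hD D1 hc R0
  rw [← chrom_eq_turan R0, max_eq_left h] at h1
  exact le_antisymm h1.2 h1.1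

lemma cr_val {k : ℕ} (hk : 3 ≤ k) {L x : ℝ} (h0 : 0 < L) (h1 : ((k : ℝ) - 1) * L ≤ Real.exp 1)
    (hx : x = Real.exp (-(L * x ^ (k - 1)))) :
    1 - 1 / ((2 * k - 3 : ℕ) : ℝ) ≤ x + ((k : ℝ) - 1) / k * L * x ^ k := by
  obtain ⟨j, rfl⟩ : ∃ j, k = j + 1 := ⟨k - 1, by omega⟩
  have hj : (2 : ℝ) ≤ j := by exact_mod_cast (by omega : 2 ≤ j)
  have e : ((2 * (j + 1) - 3 : ℕ) : ℝ) = 2 * j - 1 := by
    rw [Nat.cast_sub (by omega)]; push_cast; ring
  rw [Nat.add_sub_cancel] at hx
  rw [e]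
  push_cast at h1 ⊢
  rw [add_sub_cancel_right] at h1 ⊢
  have x0 : 0 < x := hx ▸ Real.exp_pos _
  obtain ⟨t, ht⟩ : ∃ t, t = L * x ^ j := ⟨_, rfl⟩
  have t0 : 0 < t := by rw [ht]; positivity
  rw [← ht] at hx
  have a1 : t * Real.exp (j * t) = L := by
    nth_rewrite 1 [ht]
    rw [hx, ← Real.exp_nat_mul, mul_assoc, ← Real.exp_add]
    simp
  have a2 : j * t ≤ 1 := by
    by_contra h
    have b1 := Real.exp_lt_exp.2 (not_le.1 h)
    have b2 := mul_lt_mul_of_pos_right (not_le.1 h) (Real.exp_pos (j * t))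
    rw [mul_assoc, a1] at b2
    linarith only [b1, b2, h1]
  have a3 : 1 - t ≤ x := by rw [hx]; linarith only [Real.add_one_le_exp (-t)]
  have a4 : x + j / (j + 1) * L * x ^ (j + 1) = x * (1 + j * t / (j + 1)) := by
    rw [ht, pow_succ]; ring
  rw [a4]
  refine le_trans ?_ (mul_le_mul_of_nonneg_right a3 (by positivity))
  have a5 : (1 - t) * (1 + j * t / (j + 1)) = 1 - (t + j * t * t) / (j + 1) := by
    field_simp
    ring
  rw [a5, sub_le_sub_iff_left, div_le_div_iff₀ (by positivity) (by linarith only [hj])]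
  have a6 : j * t * t ≤ t := mul_le_of_le_one_left t0.le a2
  have a7 : (0 : ℝ) ≤ (j - 2) * (j - 1) := mul_nonneg (by linarith only [hj]) (by linarith only [hj])
  have a8 : (t + j * t * t) * (2 * j - 1) ≤ 2 * t * (2 * j - 1) :=
    mul_le_mul_of_nonneg_right (by linarith only [a6]) (by linarith only [hj])
  have a9 : 2 * t * (2 * j - 1) ≤ t * (j * (j + 1)) := by nlinarith only [a7, t0]
  have a10 := mul_le_mul_of_nonneg_right a2 (show (0 : ℝ) ≤ j + 1 by positivity)
  linarith only [a8, a9, a10]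

end Pool.Agent.Work.MP_d4a230_co.U
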