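import Pool.Agent.Work.MP_d4a230_co.C.Mom

/-!
Mixed counting lemma: the core stays sparse, the other edges are replaced by dense models.
-/

namespace Pool.Agent.Work.MP_d4a230_co.U

open Finset Filter Topology Pool.Agent.Work.MP_07f1b5_pr
open scoped BigOperators

set_option linter.unusedSectionVars false

section aux

variable {V G α β VB E0 EZ : Type} [Fintype V] [DecidableEq V] [Fintype G] [DecidableEq G]
  [Fintype α] [DecidableEq α] [Fintype β] [DecidableEq β] [Fintype VB] [DecidableEq VB]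
  [Fintype E0] [DecidableEq E0] [Fintype EZ] [DecidableEq EZ] (eb : E0 ⊕ EZ → VB × VB)

lemma cr_bad [Nonempty V] [Nonempty G] [Nonempty β] (ep : β → α × α)
    (hne : ∀ j, (ep j).1 ≠ (ep j).2) {Ω : Type} [Fintype Ω] (ξ : EZ → Ω → V × V → ℝ)
    {C0 C γ δ c κ : ℝ} (hC : 0 < C) (hγ : 0 < γ) (hδ : 0 < δ) (hc : 0 < c) (hκ : 0 ≤ κ)
    (hξ : ∀ f ω e, 0 ≤ ξ f ω e ∧ ξ f ω e ≤ c)
    (hS : ∀ (l : G → Option (E0 ⊕ EZ)) (f : EZ), 𝔼 y : G → α → V, S2 eb (.inr f) (fun g e =>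
      Fintype.card (Option (E0 ⊕ EZ)) * den (sp ep y) (lay β l (some g)) e + 1) κ ≤ C0)
    (h1 : 1 ≤ δ ^ 2 * Fintype.card G)
    (h2 : Real.log (2 * Fintype.card Ω) ≤ δ ^ 2 * Fintype.card G) :
    ∃ B : (G → α → V) → (G → Option (E0 ⊕ EZ)) → ℝ, (∀ y l, 0 ≤ B y l) ∧
      𝔼 y, 𝔼 l, B y l ≤
        Fintype.card EZ * (C0 / C + 4 * δ * c * Fintype.card (Option (E0 ⊕ EZ)) / γ) ∧
      ∀ y l (f : EZ), S2 eb (.inr f) (fun g e => Fintype.card (Option (E0 ⊕ EZ)) *
        den (sp ep y) (lay β l (some g)) e + 1) κ / C ≤ B y l ∧ (B y l < 1 → ∀ ω,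
        |𝔼 e, (Fintype.card (Option (E0 ⊕ EZ)) * den (sp ep y) (lay β l (some (.inr f))) e - 1) *
          ξ f ω e| ≤ γ) := by
  choose er h0 hm hb using fun (l : G → Option (E0 ⊕ EZ)) (f : EZ) =>
    pseudo (V := V) ep hne (lay β l (some (.inr f))) (ξ f) hc hδ (hξ f) h2
  set Q : ℝ := ((Fintype.card (Option (E0 ⊕ EZ)) : ℕ) : ℝ) with hQ
  have hQ0 : 0 ≤ Q := Nat.cast_nonneg _
  have hS0 : ∀ (y : G → α → V) (l : G → Option (E0 ⊕ EZ)) (f : EZ),
      0 ≤ S2 eb (.inr f) (fun g e => Q * den (sp ep y) (lay β l (some g)) e + 1) κ := fun y l f =>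
    CL_S2_nonneg eb _ (fun g e => add_nonneg (mul_nonneg hQ0 (den_nonneg _ _ _)) zero_le_one) hκ
  have ht : ∀ (y : G → α → V) (l : G → Option (E0 ⊕ EZ)) (f : EZ), 0 ≤ (Q * er l f y +
      c * |Q * ((lay β l (some (.inr f))).card / Fintype.card (G × β)) - 1|) / γ := fun y l f =>
    div_nonneg (add_nonneg (mul_nonneg hQ0 (h0 _ _ _)) (mul_nonneg hc.le (abs_nonneg _))) hγ.le
  refine ⟨fun y l => ∑ f : EZ,
    (S2 eb (.inr f) (fun g e => Q * den (sp ep y) (lay β l (some g)) e + 1) κ / C +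
    (Q * er l f y + c * |Q * ((lay β l (some (.inr f))).card / Fintype.card (G × β)) - 1|) / γ),
    fun y l => sum_nonneg fun f _ => add_nonneg (div_nonneg (hS0 y l f) hC.le) (ht y l f), ?_, ?_⟩
  · rw [expect_comm]
    simp only [expect_sum_comm]
    rw [← card_univ, ← nsmul_eq_mul]
    refine sum_le_card_nsmul _ _ _ fun f _ => ?_
    have a1 : ∀ l : G → Option (E0 ⊕ EZ), 𝔼 y : G → α → V,
        (S2 eb (.inr f) (fun g e => Q * den (sp ep y) (lay β l (some g)) e + 1) κ / C +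
          (Q * er l f y +
          c * |Q * ((lay β l (some (.inr f))).card / Fintype.card (G × β)) - 1|) / γ) ≤
        C0 / C + (Q * (2 * δ * c) +
          c * |Q * ((lay β l (some (.inr f))).card / Fintype.card (G × β)) - 1|) / γ := by
      intro l
      simp only [expect_add_distrib, ← expect_div, ← mul_expect, Fintype.expect_const]
      gcongr
      exacts [hS l f, hm l f]
    refine (ex_mono a1).trans ?_
    simp only [expect_add_distrib, ← expect_div, ← mul_expect, Fintype.expect_const]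
    have a2 := mul_le_mul_of_nonneg_left
      (lay_card (β := β) (G := G) (some (.inr f) : Option (E0 ⊕ EZ)) hδ h1) hc.le
    rw [← hQ] at a2
    gcongr
    linarith only [a2]
  · intro y l f
    have a1 := (single_le_sum (f := fun f : EZ => S2 eb (.inr f) (fun g e =>
      Q * den (sp ep y) (lay β l (some g)) e + 1) κ / C + (Q * er l f y +
        c * |Q * ((lay β l (some (.inr f))).card / Fintype.card (G × β)) - 1|) / γ)
      (fun f _ => add_nonneg (div_nonneg (hS0 y l f) hC.le) (ht y l f)) (mem_univ f))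
    have a2 := ht y l f
    have a3 := div_nonneg (hS0 y l f) hC.le
    refine ⟨(le_add_of_nonneg_right a2).trans a1, fun hB ω => ?_⟩
    have a4 : Q * er l f y +
        c * |Q * ((lay β l (some (.inr f))).card / Fintype.card (G × β)) - 1| ≤ γ :=
      (div_le_one hγ).1 (((le_add_of_nonneg_left a3).trans a1).trans hB.le)
    have a5 := hb l f y ω
    have a6 : 0 ≤ 𝔼 e, ξ f ω e := expect_nonneg fun e _ => (hξ f ω e).1
    have a7 : 𝔼 e, ξ f ω e ≤ c := ex_le hc.le fun e => (hξ f ω e).2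
    have a8 : 𝔼 e, (Q * den (sp ep y) (lay β l (some (.inr f))) e - 1) * ξ f ω e =
        Q * ((𝔼 e, den (sp ep y) (lay β l (some (.inr f))) e * ξ f ω e) -
          (lay β l (some (.inr f))).card / Fintype.card (G × β) * 𝔼 e, ξ f ω e) +
        (𝔼 e, ξ f ω e) * (Q * ((lay β l (some (.inr f))).card / Fintype.card (G × β)) - 1) := by
      simp only [sub_mul, mul_assoc, one_mul, expect_sub_distrib, ← mul_expect]
      ring
    rw [a8]
    refine (abs_add_le _ _).trans (le_trans ?_ a4)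
    rw [abs_mul, abs_mul, abs_of_nonneg hQ0, abs_of_nonneg a6]
    gcongr

theorem cr_fin [Nonempty V] [Nonempty G] [Nonempty β] {Rt : Finset VB} {D : ℕ} (S : CrS eb Rt D)
    (ep : β → α × α) (hne : ∀ j, (ep j).1 ≠ (ep j).2) {C0 C Mx γ δ T d θ b κ : ℝ} {m K : ℕ}
    (hC : 0 < C) (hM : 0 < Mx) (hK : 0 < K) (hm : 0 < m) (hγ : 0 < γ) (hγ2 : γ ≤ 1 / 2)
    (hδ : 0 < δ) (hT : 0 < T) (hθ : 0 < θ) (hd : d ≤ 1) (k0 : 0 ≤ κ) (k1 : κ ≤ 1)
    (hβ : Fintype.card EZ * (2 * (2 * γ + 1 / m)) / θ ≤ b)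
    (hκ : D * (1 - (d - θ)) + b ≤ 1 - κ)
    (hS : ∀ (l : G → Option (E0 ⊕ EZ)) (f : EZ), 𝔼 y : G → α → V, S2 eb (.inr f) (fun g e =>
      Fintype.card (Option (E0 ⊕ EZ)) * den (sp ep y) (lay β l (some g)) e + 1)
        (Fintype.card (Option (E0 ⊕ EZ)) * (Fintype.card V : ℝ) ^ 2 / K) ≤ C0)
    (h1 : 2 * ((Fintype.card V : ℝ) + 1) ≤ δ ^ 2 * Fintype.card G)
    (h2 : Real.log (2 * Fintype.card (Option Unit × (Fin (2 * m ^ 2 + 1) → Bool ×
      ((E0 ⊕ EZ → Fin K → Option (V × V)) ⊕ (Finset V × Finset V))))) ≤ δ ^ 2 * Fintype.card G) :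
    ∃ err : (G → α → V) → ℝ, (∀ y, 0 ≤ err y) ∧ 𝔼 y, err y ≤
      Fintype.card EZ * (Mx / m + 3 * (C / Mx) + 2 * (Mx * b)) +
      T * (Fintype.card EZ * (2 * δ * Fintype.card (Option (E0 ⊕ EZ)) / γ)) + (T + C / T) *
        (Fintype.card EZ * (C0 / C + 4 * δ * (3 * m) * Fintype.card (Option (E0 ⊕ EZ)) / γ)) ∧
      ∀ y (R : Finset (G × β)), dfc d (den (sp ep y) R) ≤ γ →
        κ ^ Fintype.card VB * Cnt (fun g => eb (.inl g)) (sp ep y) (fun _ => 1) (fun _ => R) ≤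
          Cnt eb (sp ep y) (fun _ => 1) (fun _ => R) + err y := by
  have hQ1 : (1 : ℝ) ≤ Fintype.card (Option (E0 ⊕ EZ)) := by exact_mod_cast Fintype.card_pos
  have hQ0 : (0 : ℝ) ≤ Fintype.card (Option (E0 ⊕ EZ)) := Nat.cast_nonneg _
  have hb0 : 0 ≤ b := le_trans (by positivity) hβ
  obtain ⟨B, hB0, hB1, hB2⟩ := cr_bad eb ep hne
    (fun f (p : Option Unit × (Fin (2 * m ^ 2 + 1) → Bool ×
      ((E0 ⊕ EZ → Fin K → Option (V × V)) ⊕ (Finset V × Finset V)))) e => max (bsum m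
      (tests eb (Fintype.card (Option (E0 ⊕ EZ))) Mx K (.inr f) fun _ => 1) p.2 e) 0)
    hC hγ hδ (c := 3 * m) (by positivity) (by positivity)
    (fun f p e => ⟨le_max_right _ _, max_le ((le_abs_self _).trans (bsum_le m hm _ (fun t e => by
      have := tests_unit eb hQ0 hM K (.inr f) (Cut_unit (X := VB → V)) t e
      rw [abs_of_nonneg this.1]; exact this.2) _ _)) (by positivity)⟩) hS
    (le_trans (by have : (0 : ℝ) ≤ Fintype.card V := Nat.cast_nonneg _; linarith only [this]) h1) h2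
  set Q : ℝ := ((Fintype.card (Option (E0 ⊕ EZ)) : ℕ) : ℝ) with hQ
  set s : ℝ := Fintype.card EZ * (Mx / m + 3 * (C / Mx) + 2 * (Mx * b)) with hs
  have hs0 : 0 ≤ s := by positivity
  set ν : (G → α → V) → (G → Option (E0 ⊕ EZ)) → E0 ⊕ EZ → V × V → ℝ :=
    fun y l f e => Q * den (sp ep y) (lay β l (some f)) e with hν
  refine ⟨fun y => s + T * (Fintype.card EZ * (2 * δ * Q / γ)) + (T + C / T) * 𝔼 l, B y l,
    fun y => ?_, ?_, ?_⟩
  · have : 0 ≤ 𝔼 l, B y l := expect_nonneg fun l _ => hB0 y l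
    positivity
  · simp only [expect_add_distrib, Fintype.expect_const, ← mul_expect]
    exact add_le_add le_rfl (mul_le_mul_of_nonneg_left hB1 (by positivity))
  · intro y R hR
    set a : (G → Option (E0 ⊕ EZ)) → E0 ⊕ EZ → V × V → ℝ :=
      fun l f e => Q * den (sp ep y) (R ∩ lay β l (some f)) e with ha
    have ha0 : ∀ l f e, 0 ≤ a l f e ∧ a l f e ≤ ν y l f e := fun l f e =>
      ⟨mul_nonneg hQ0 (den_nonneg _ _ _),
        mul_le_mul_of_nonneg_left (den_mono _ inter_subset_right _) hQ0⟩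
    have pt : ∀ l, κ ^ Fintype.card VB *
        Lam (fun g => eb (.inl g)) (fun _ => 1) (fun g => a l (.inl g)) ≤
        Lam eb (fun _ => 1) (a l) + s +
        T * ∑ f : EZ, cut (fun e => a l (.inr f) e - den (sp ep y) R e) / γ +
        (T + C / T) * B y l := by
      intro l
      have b4 : 0 ≤ ∑ f : EZ, cut (fun e => a l (.inr f) e - den (sp ep y) R e) / γ :=
        sum_nonneg fun f _ => div_nonneg (cut_nonneg _) hγ.le
      have b5 := mul_nonneg hT.le b4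
      have b6 := mul_nonneg hT.le (hB0 y l)
      have b7 := mul_nonneg (div_nonneg hC.le hT.le) (hB0 y l)
      by_cases h : ∀ f : EZ, B y l < 1 ∧ cut (fun e => a l (.inr f) e - den (sp ep y) R e) ≤ γ
      · have := cr_det eb S (ν y l) (C := C) hQ1 hM hK hm (fun f => by
            simp only [hν, ← mul_expect]
            exact mul_le_of_le_one_right hQ0 (ex_den_le _ _))
          (fun f => (div_le_one hC).1 ((hB2 y l f).1.trans (h f).1.le))
          (fun f c => ((le_abs_self _).trans ((hB2 y l f).2 (h f).1 (none, c))).trans hγ2)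
          (a l) (ha0 l) _ (den_swap _ R) (fun f => (h f).2) hR hθ hd k0 k1 hβ hκ
        linarith only [this, b5, b6, b7, hs]
      · obtain ⟨f, hf⟩ := not_forall.1 h
        have c1 : 1 ≤ B y l + ∑ f : EZ, cut (fun e => a l (.inr f) e - den (sp ep y) R e) / γ := by
          by_cases e : B y l < 1
          · have c2 := ((one_le_div hγ).2 (not_le.1 fun e2 => hf ⟨e, e2⟩).le).trans (single_le_sum
              (f := fun f : EZ => cut (fun e => a l (.inr f) e - den (sp ep y) R e) / γ)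
              (fun f _ => div_nonneg (cut_nonneg _) hγ.le) (mem_univ f))
            linarith only [c2, hB0 y l]
          · linarith only [not_lt.1 e, b4]
        have c3 := cr_root eb f (S.ne f) (a l) (ν y l) (ha0 l)
          (κ := Q * (Fintype.card V : ℝ) ^ 2 / K) (by positivity) hT (fun _ => 1) Cut_unit
        have c4 : Lam (fun g => eb (.inl g)) (fun _ => 1) (fun g => a l (.inl g)) =
            𝔼 x : VB → V, (∏ g, a l (.inl g) (exf eb x (.inl g))) * 1 :=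
          expect_congr rfl fun x _ => mul_comm _ _
        have c5 : 0 ≤ Lam (fun g => eb (.inl g)) (fun _ => 1) (fun g => a l (.inl g)) :=
          (CL_lam_le (fun g => eb (.inl g)) (Cut_unit (X := VB → V))
            fun g e => ha0 l (.inl g) e).1
        have c6 : 0 ≤ Lam eb (fun _ => 1) (a l) :=
          (CL_lam_le eb (Cut_unit (X := VB → V)) (ha0 l)).1
        have c7 := mul_le_of_le_one_left c5 (pow_le_one₀ (n := Fintype.card VB) k0 k1)
        have c8 : S2 eb (.inr f) (fun g e => ν y l g e + 1) (Q * (Fintype.card V : ℝ) ^ 2 / K) / T ≤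
            C * B y l / T := div_le_div_of_nonneg_right ((div_le_iff₀' hC).1 (hB2 y l f).1) hT.le
        have c9 := mul_le_mul_of_nonneg_left c1 hT.le
        rw [← c4, Fintype.expect_const] at c3
        rw [mul_div_right_comm C] at c8
        linarith only [c3, c6, c7, c8, c9, hs0]
    rw [← rainbow eb (sp ep y) _ _ some (Option.some_injective _),
      ← rainbow (fun g => eb (.inl g)) (sp ep y) _ _ (fun g => (some (.inl g) : Option (E0 ⊕ EZ)))
        ((Option.some_injective _).comp Sum.inl_injective), mul_expect]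
    refine (ex_mono pt).trans ?_
    simp only [expect_add_distrib, Fintype.expect_const, ← mul_expect, expect_sum_comm,
      ← expect_div]
    have c : ∑ f : EZ, (𝔼 l, cut (fun e => a l (.inr f) e - den (sp ep y) R e)) / γ ≤
        Fintype.card EZ * (2 * δ * Q / γ) := by
      rw [← card_univ, ← nsmul_eq_mul]
      refine sum_le_card_nsmul _ _ _ fun f _ => ?_
      exact div_le_div_of_nonneg_right
        (lay_close (sp ep y) R (some (.inr f) : Option (E0 ⊕ EZ)) hδ h1) hγ.le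
    have c2 := mul_le_mul_of_nonneg_left c hT.le
    linarith only [c2]

end aux

variable {α β : Type} [Fintype α] [DecidableEq α] [Fintype β] [DecidableEq β]
  {W : Type} [Fintype W] [DecidableEq W] {H : SimpleGraph W} [DecidableRel H.Adj]
  {ep : β → α × α} {n M : ℕ → ℕ} {τ : ℕ → ℝ}

theorem cr_count (R : Reg H ep n M τ) {VB E0 EZ : Type} [Fintype VB] [DecidableEq VB] [Fintype E0]
    [DecidableEq E0] [Fintype EZ] [DecidableEq EZ] (eb : E0 ⊕ EZ → VB × VB) {Rt : Finset VB}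
    {D : ℕ} (S : CrS eb Rt D) (hDC : ∀ (f : EZ) (F : Finset (E0 ⊕ EZ)), .inr f ∉ F → F.Nonempty →
      (Fintype.card W - 2) * F.card < (R.K - 1) * (vset eb F \ vset eb {.inr f}).card)
    {d : ℝ} (hd : d ≤ 1) (hD : D * (1 - d) < 1) : ∃ κ : ℝ, 0 < κ ∧ ∀ ε : ℝ, 0 < ε →
      ∃ γ : ℝ, 0 < γ ∧ ∀ᶠ j in atTop,
      ∃ err : (Fin (M j) → α → Fin (n j)) → ℝ, (∀ y, 0 ≤ err y) ∧ 𝔼 y, err y ≤ ε ∧
        ∀ y (T : Finset (Fin (M j) × β)), dfc d (den (sp ep y) T) ≤ γ →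
          κ * Cnt (fun g => eb (.inl g)) (sp ep y) (fun _ => 1) (fun _ => T) ≤
            Cnt eb (sp ep y) (fun _ => 1) (fun _ => T) + err y := by
  have := R.nb
  obtain ⟨K, hK1, hK2, hK3⟩ := R.net
  have hQ1 : (1 : ℝ) ≤ Fintype.card (Option (E0 ⊕ EZ)) := by exact_mod_cast Fintype.card_pos
  obtain ⟨C0, hC0, hmom⟩ := cr_mom eb (Fintype.card W) R.K ep R.ne hQ1
  have hQE : (Fintype.card (Option (E0 ⊕ EZ)) : ℝ) = Fintype.card (E0 ⊕ EZ) + 1 := by
    rw [Fintype.card_option]; push_cast; rfl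
  have hQZ : (Fintype.card EZ : ℝ) ≤ Fintype.card (Option (E0 ⊕ EZ)) := by
    rw [Fintype.card_option, Fintype.card_sum]; exact_mod_cast (by omega)
  set Q : ℝ := ((Fintype.card (Option (E0 ⊕ EZ)) : ℕ) : ℝ) with hQ
  have hE0 : (0 : ℝ) ≤ Fintype.card EZ := Nat.cast_nonneg _
  have hD0 : (0 : ℝ) ≤ D := Nat.cast_nonneg _
  obtain ⟨σ, hσ⟩ : ∃ σ : ℝ, σ = (1 - D * (1 - d)) / 3 := ⟨_, rfl⟩
  have s0 : 0 < σ := by linarith only [hσ, hD]
  have s1 : σ ≤ 1 := by linarith only [hσ, mul_nonneg hD0 (sub_nonneg.2 hd)]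
  obtain ⟨θ, hθ, hθ1⟩ : ∃ θ : ℝ, 0 < θ ∧ D * θ ≤ σ :=
    ⟨σ / (D + 1), by positivity, by
      rw [mul_div_assoc', div_le_iff₀ (by positivity)]; nlinarith only [s0]⟩
  refine ⟨σ ^ Fintype.card VB, by positivity, fun ε hε => ?_⟩
  obtain ⟨η, hη, hη1⟩ : ∃ η : ℝ, 0 < η ∧ 10 * (Q * η) ≤ ε :=
    ⟨ε / (10 * Q), by positivity, le_of_eq (by field_simp)⟩
  obtain ⟨T, hT, hT1⟩ : ∃ T : ℝ, 0 < T ∧ C0 / T ≤ η :=
    ⟨(C0 + 1) / η, by positivity, by
      rw [div_le_iff₀ (by positivity), mul_div_cancel₀ _ hη.ne']; linarith⟩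
  obtain ⟨C, hC, hC1⟩ : ∃ C : ℝ, 0 < C ∧ T * C0 / C ≤ η :=
    ⟨(T * C0 + 1) / η, by positivity, by
      rw [div_le_iff₀ (by positivity), mul_div_cancel₀ _ hη.ne']; linarith⟩
  obtain ⟨Mx, hM, hM1⟩ : ∃ Mx : ℝ, 0 < Mx ∧ C / Mx ≤ η :=
    ⟨C / η, by positivity, by rw [div_div_cancel₀ hC.ne']⟩
  obtain ⟨b, hb, hb1, hb2⟩ : ∃ b : ℝ, 0 < b ∧ Mx * b ≤ η ∧ b ≤ σ :=
    ⟨min (η / Mx) σ, by positivity, (le_div_iff₀' hM).1 (min_le_left _ _), min_le_right _ _⟩
  obtain ⟨γ, hγ, hγ1, hγ2⟩ : ∃ γ : ℝ, 0 < γ ∧ γ ≤ 1 / 2 ∧ Q * (6 * γ) ≤ b * θ :=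
    ⟨min (1 / 2) (b * θ / (Q * 6)), by positivity, min_le_left _ _, by
      rw [← mul_assoc]; exact (le_div_iff₀' (by positivity)).1 (min_le_right _ _)⟩
  obtain ⟨m, hm, hm1, hm3⟩ : ∃ m : ℕ, 0 < m ∧ Mx / m ≤ η ∧ 1 / (m : ℝ) ≤ γ := by
    have h0 : 0 < ⌈Mx / η + 1 / γ⌉₊ := Nat.ceil_pos.2 (by positivity)
    have h1 := Nat.le_ceil (Mx / η + 1 / γ)
    have h2 : (0 : ℝ) < ⌈Mx / η + 1 / γ⌉₊ := by exact_mod_cast h0
    refine ⟨_, h0, ?_, ?_⟩
    · rw [div_le_iff₀ h2, mul_comm, ← div_le_iff₀ hη]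
      exact (le_add_of_nonneg_right (by positivity)).trans h1
    · rw [div_le_iff₀ h2, mul_comm, ← div_le_iff₀ hγ]
      exact (le_add_of_nonneg_left (by positivity)).trans h1
  have hm2 : (1 : ℝ) ≤ m := by exact_mod_cast hm
  obtain ⟨δ, hδ, hδ1⟩ : ∃ δ : ℝ, 0 < δ ∧ (T + C / T) * (4 * δ * (3 * m) * Q / γ) ≤ η :=
    ⟨η * γ / ((T + C / T) * (12 * m * Q)), by positivity, le_of_eq (by field_simp; norm_num)⟩
  have hδ2 : T * (2 * δ * Q / γ) ≤ η := le_trans (mul_le_mul (le_add_of_nonneg_right (by positivity))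
    (div_le_div_of_nonneg_right (mul_le_mul_of_nonneg_right (by nlinarith only [hδ, hm2])
      (by linarith only [hQ1])) hγ.le) (by positivity) (by positivity)) hδ1
  refine ⟨γ, hγ, ?_⟩
  have hr : (0 : ℝ) < ((2 * m ^ 2 + 1 : ℕ) : ℝ) * Q := by positivity
  filter_upwards [hK1, R.pos, R.lin 2 (pow_pos hδ 2),
    R.lin (2 + |(0 : ℝ)| + 2 * ((2 * m ^ 2 + 1 : ℕ) : ℝ)) (half_pos (pow_pos hδ 2)),
    hK2 _ (div_pos (half_pos (pow_pos hδ 2)) hr),
    (eventually_all_finset (range (Fintype.card (E0 ⊕ EZ) + 1) ×ˢ range (Fintype.card VB + 1))).2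
      fun p _ => (eventually_imp_distrib_left (p := (Fintype.card W - 2) * p.1 <
        (R.K - 1) * p.2)).2 (hK3 Q p.1 p.2 (by positivity))]
    with j j1 j2 j3 j4 j5 j6
  have : Nonempty (Fin (n j)) := ⟨⟨0, j2.1⟩⟩
  have : Nonempty (Fin (M j)) := ⟨⟨0, j2.1.trans_le j2.2⟩⟩
  have hb0 : M j ≤ M j * Fintype.card β := Nat.le_mul_of_pos_right _ Fintype.card_pos
  have hK0 : (0 : ℝ) < K j := by exact_mod_cast j1.1
  have c1 : (n j : ℝ) ^ 2 ≤
      Q * (Fintype.card (Fin (n j)) : ℝ) ^ 2 / K j * (M j * Fintype.card β : ℕ) := by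
    rw [Fintype.card_fin, div_mul_eq_mul_div, le_div_iff₀ hK0]
    have b1 : (K j : ℝ) ≤ (M j * Fintype.card β : ℕ) := by exact_mod_cast j1.2.trans hb0
    exact mul_le_mul (le_mul_of_one_le_left (by positivity) hQ1) b1 hK0.le (by positivity)
  have c2 : ∀ a c : ℕ, a ≤ Fintype.card (E0 ⊕ EZ) → c ≤ Fintype.card VB →
      (Fintype.card W - 2) * a < (R.K - 1) * c →
      (Q * (Fintype.card (Fin (n j)) : ℝ) ^ 2 / K j) ^ a ≤ (n j : ℝ) ^ c := by
    intro a c ha hc hac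
    rw [Fintype.card_fin]
    exact j6 (a, c) (mem_product.2 ⟨mem_range.2 (by omega), mem_range.2 (by omega)⟩) hac
  have c3 := CL_card (EB := E0 ⊕ EZ) (Ω := Unit) (C1 := 0) (n j) (K j) (2 * m ^ 2 + 1) (by simp)
  have b1 : 0 ≤ K j * Real.log ((n j : ℝ) ^ 2 + 1) :=
    mul_nonneg hK0.le (Real.log_nonneg (by nlinarith only [sq_nonneg (n j : ℝ)]))
  have c4 : ((2 * m ^ 2 + 1 : ℕ) : ℝ) * Fintype.card (E0 ⊕ EZ) *
      (K j * Real.log ((n j : ℝ) ^ 2 + 1)) ≤
      ((2 * m ^ 2 + 1 : ℕ) : ℝ) * Q * (δ ^ 2 / 2 / (((2 * m ^ 2 + 1 : ℕ) : ℝ) * Q) * M j) := by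
    gcongr
    linarith only [hQE]
  rw [← mul_assoc _ _ (M j : ℝ), mul_div_cancel₀ _ hr.ne'] at c4
  obtain ⟨err, e0, e1, e2⟩ := cr_fin (G := Fin (M j)) eb S ep R.ne (C0 := C0) (b := b) hC hM j1.1 hm
    hγ hγ1 hδ hT hθ hd s0.le s1
    (by
      rw [div_le_iff₀ hθ]
      exact (mul_le_mul hQZ (by linarith only [hm3]) (by positivity) (by positivity)).trans hγ2)
    (by linarith only [hσ, hθ1, hb2])
    (fun l f => hmom (n j) (M j) _ l some _ (Option.some_injective _) j2.1 (j2.2.trans hb0) c1 c2 _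
      (hDC f))
    (by simpa only [Fintype.card_fin] using j3)
    (c3.trans (by rw [Fintype.card_fin]; exact (add_le_add j4 c4).trans_eq (by ring)))
  refine ⟨err, e0, e1.trans ?_, e2⟩
  rw [← hQ]
  have b2 : (T + C / T) * (C0 / C) = T * C0 / C + C0 / T := by field_simp
  have b3 : Mx / m + 3 * (C / Mx) + 2 * (Mx * b) + T * (2 * δ * Q / γ) +
      (T + C / T) * (C0 / C + 4 * δ * (3 * m) * Q / γ) ≤ 10 * η := by
    rw [mul_add (T + C / T), b2]
    linarith only [hm1, hM1, hb1, hδ2, hC1, hT1, hδ1]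
  have b4 := mul_le_mul hQZ b3 (by positivity) (by positivity)
  linarith only [b4, hη1]

end Pool.Agent.Work.MP_d4a230_co.U
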