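import Pool.Agent.Work.MP_d4a230_co.HDefs

namespace Pool.Agent.Work.MP_d4a230_co

/-- `F` has at least three vertices and every other subgraph of `H` with at least three vertices
has a smaller `twoRatio`. -/
def UniqueDensest {W : Type} {H : SimpleGraph W} (F : H.Subgraph) : Prop :=
  3 ≤ F.verts.ncard ∧
    ∀ F' : H.Subgraph, F' ≠ F → 3 ≤ F'.verts.ncard → twoRatio F' < twoRatio F

end Pool.Agent.Work.MP_d4a230_co
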