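import Pool.Agent.Work.MP_d4a230_co.V.LF1

/-!
Dense extension of a sparse core: deterministic part.
-/

namespace Pool.Agent.Work.MP_d4a230_co.U

open Finset Filter Topology Pool.Agent.Work.MP_07f1b5_pr
open scoped BigOperators

set_option linter.unusedSectionVars false

lemma cr_prod {J : Type} (s : Finset J) (g : J → ℝ) (hg : ∀ j, 0 ≤ g j ∧ g j ≤ 1) :
    1 - ∑ j ∈ s, (1 - g j) ≤ ∏ j ∈ s, g j := by
  induction s using Finset.cons_induction with
  | empty => simp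
  | cons a s ha ih =>
    rw [sum_cons, prod_cons]
    have h1 : 0 ≤ ∑ j ∈ s, (1 - g j) := sum_nonneg fun j _ => sub_nonneg.2 (hg j).2
    nlinarith [mul_le_mul_of_nonneg_left ih (hg a).1, mul_nonneg h1 (sub_nonneg.2 (hg a).2)]

variable {V VB : Type} [Fintype V] [DecidableEq V] [Nonempty V] [Fintype VB] [DecidableEq VB]

lemma cr_step {J : Type} (s : Finset J) (g : J → V → ℝ) (hg : ∀ j, Unit01 (g j)) (B : V → Prop)
    {d β κ : ℝ} {D : ℕ} (hs : s.card ≤ D) (hd : d ≤ 1) (hm : ∀ j ∈ s, d ≤ 𝔼 a, g j a)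
    (hβ : 𝔼 a, ind (B a) ≤ β) (hκ : D * (1 - d) + β ≤ 1 - κ) :
    κ ≤ 𝔼 a, ind (¬ B a) * ∏ j ∈ s, g j a := by
  have h1 : ∀ a, 1 - ind (B a) - ∑ j ∈ s, (1 - g j a) ≤ ind (¬ B a) * ∏ j ∈ s, g j a := by
    intro a
    have h2 := cr_prod s (fun j => g j a) fun j => hg j a
    have h3 : 0 ≤ ∑ j ∈ s, (1 - g j a) := sum_nonneg fun j _ => sub_nonneg.2 (hg j a).2
    by_cases h : B a
    · rw [ind_pos h, ind_neg (not_not.2 h), zero_mul]; linarith
    · rw [ind_neg h, ind_pos h, one_mul]; linarith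
  refine le_trans ?_ (ex_mono h1)
  simp only [expect_sub_distrib, expect_sum_comm, Fintype.expect_const]
  have h4 : ∑ j ∈ s, (1 - 𝔼 a, g j a) ≤ s.card * (1 - d) := by
    rw [← nsmul_eq_mul]
    exact sum_le_card_nsmul _ _ _ fun j hj => by linarith [hm j hj]
  have h5 : (s.card : ℝ) * (1 - d) ≤ D * (1 - d) :=
    mul_le_mul_of_nonneg_right (by exact_mod_cast hs) (by linarith)
  linarith

section ext

variable {EZ : Type} [Fintype EZ] [DecidableEq EZ] (ez : EZ → VB × VB)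

/-- The edges with both ends in `S`. -/
def crIn (S : Finset VB) : Finset EZ := univ.filter fun f => (ez f).1 ∈ S ∧ (ez f).2 ∈ S

/-- The edges inside `S` at the vertex `u`. -/
def crAt (S : Finset VB) (u : VB) : Finset EZ :=
  (crIn ez S).filter fun f => (ez f).1 = u ∨ (ez f).2 = u

theorem cr_ext (hne : ∀ f, (ez f).1 ≠ (ez f).2) (Rt : Finset VB)
    (hZ : ∀ f, (ez f).1 ∉ Rt ∨ (ez f).2 ∉ Rt) {D : ℕ}
    (hdeg : ∀ U : Finset VB, U.Nonempty → Disjoint U Rt → ∃ u ∈ U, (crAt ez (Rt ∪ U) u).card ≤ D)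
    (w : EZ → V × V → ℝ) (hw : ∀ f, Unit01 (w f)) (B : V → Prop) {d β κ : ℝ} (hd : d ≤ 1)
    (hκ0 : 0 ≤ κ) (h1 : ∀ f v, ¬ B v → d ≤ 𝔼 b, w f (v, b))
    (h2 : ∀ f v, ¬ B v → d ≤ 𝔼 b, w f (b, v))
    (hβ : 𝔼 a, ind (B a) ≤ β) (hκ : D * (1 - d) + β ≤ 1 - κ) (A : (VB → V) → ℝ)
    (hA : ∀ x, 0 ≤ A x) (hA1 : ∀ x u a, u ∉ Rt → A (Function.update x u a) = A x)
    (hA2 : ∀ x, A x ≠ 0 → ∀ f, ((ez f).1 ∈ Rt → ¬ B (x (ez f).1)) ∧
      ((ez f).2 ∈ Rt → ¬ B (x (ez f).2))) (U : Finset VB) (hU : Disjoint U Rt) :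
    κ ^ U.card * 𝔼 x, A x ≤ 𝔼 x, A x * ((∏ f ∈ crIn ez (Rt ∪ U), w f (exf ez x f)) *
      ∏ u ∈ U, ind (¬ B (x u))) := by
  induction U using Finset.strongInduction with
  | H U ih =>
    rcases U.eq_empty_or_nonempty with rfl | hne2
    · have : crIn ez (Rt ∪ ∅) = ∅ := filter_false_of_mem fun f _ h => by
        rw [union_empty] at h
        rcases hZ f with e | e
        exacts [e h.1, e h.2]
      rw [this]
      simp
    obtain ⟨u, hu, hD⟩ := hdeg U hne2 hU
    have huR : u ∉ Rt := disjoint_left.1 hU hu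
    have ih2 := ih (U.erase u) (erase_ssubset hu) (hU.mono_left (erase_subset _ _))
    have hmem : ∀ a, a ∈ Rt ∪ U.erase u ↔ a ∈ Rt ∪ U ∧ a ≠ u := fun a => by
      simp only [mem_union, mem_erase]
      constructor
      · rintro (h | h)
        · exact ⟨Or.inl h, fun e => huR (e ▸ h)⟩
        · exact ⟨Or.inr h.2, h.1⟩
      · rintro ⟨h | h, h3⟩
        exacts [Or.inl h, Or.inr ⟨h3, h⟩]
    have e1 : (crIn ez (Rt ∪ U)).filter (fun f => ¬ ((ez f).1 = u ∨ (ez f).2 = u)) =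
        crIn ez (Rt ∪ U.erase u) := by
      ext f
      simp only [crIn, mem_filter, mem_univ, true_and, hmem, not_or]
      tauto
    set P : (VB → V) → ℝ := fun x => (∏ f ∈ crIn ez (Rt ∪ U.erase u), w f (exf ez x f)) *
      ∏ u ∈ U.erase u, ind (¬ B (x u)) with hP
    have hP0 : ∀ x, 0 ≤ P x := fun x =>
      mul_nonneg (prod_nonneg fun f _ => (hw f _).1) (prod_nonneg fun _ _ => ind_nonneg _)
    have hP1 : ∀ x a, P (Function.update x u a) = P x := fun x a => by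
      refine congrArg₂ _ (prod_congr rfl fun f hf => ?_) (prod_congr rfl fun v hv => ?_)
      · have h3 := (mem_filter.1 hf).2
        rw [exf, exf, Function.update_of_ne ((hmem _).1 h3.1).2,
          Function.update_of_ne ((hmem _).1 h3.2).2]
      · rw [Function.update_of_ne (ne_of_mem_erase hv)]
    have e2 : ∀ x : VB → V, (∏ f ∈ crIn ez (Rt ∪ U), w f (exf ez x f)) *
        ∏ u ∈ U, ind (¬ B (x u)) =
        P x * (ind (¬ B (x u)) * ∏ f ∈ crAt ez (Rt ∪ U) u, w f (exf ez x f)) := fun x => by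
      rw [← prod_filter_mul_prod_filter_not (crIn ez (Rt ∪ U))
        (fun f => (ez f).1 = u ∨ (ez f).2 = u), e1, ← mul_prod_erase U _ hu, hP, crAt]
      ring
    simp only [e2]
    rw [ex_update u fun x => A x * (P x * (ind (¬ B (x u)) *
      ∏ f ∈ crAt ez (Rt ∪ U) u, w f (exf ez x f))), ← card_erase_add_one hu, pow_succ,
      mul_right_comm]
    refine (mul_le_mul_of_nonneg_right ih2 hκ0).trans ?_
    rw [expect_mul]
    refine ex_mono fun x => ?_
    simp only [hA1 _ _ _ huR, hP1, Function.update_self, ← mul_expect]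
    rw [← mul_assoc (A x) (P x)]
    change A x * P x * κ ≤ _
    by_cases h0 : A x * P x = 0
    · rw [h0, zero_mul, zero_mul]
    refine mul_le_mul_of_nonneg_left ?_ (mul_nonneg (hA x) (hP0 x))
    have g1 : ∀ v ∈ U.erase u, ¬ B (x v) := fun v hv hb =>
      right_ne_zero_of_mul (right_ne_zero_of_mul h0)
        (prod_eq_zero hv (ind_neg (not_not.2 hb)))
    have g2 := hA2 x (left_ne_zero_of_mul h0)
    refine cr_step _ (fun f a => w f (exf ez (Function.update x u a) f)) (fun f a => hw f _) B hD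
      hd (fun f hf => ?_) hβ hκ
    obtain ⟨f1, f2⟩ := mem_filter.1 hf
    have f3 := (mem_filter.1 f1).2
    rcases f2 with e | e
    · have f4 : (ez f).2 ≠ u := e ▸ (hne f).symm
      simp only [exf, e, Function.update_self, Function.update_of_ne f4]
      refine h2 f _ ?_
      rcases mem_union.1 ((hmem _).2 ⟨f3.2, f4⟩) with h | h
      exacts [(g2 f).2 h, g1 _ h]
    · have f4 : (ez f).1 ≠ u := e ▸ hne f
      simp only [exf, e, Function.update_self, Function.update_of_ne f4]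
      refine h1 f _ ?_
      rcases mem_union.1 ((hmem _).2 ⟨f3.1, f4⟩) with h | h
      exacts [(g2 f).1 h, g1 _ h]

end ext

/-- Mean degree deficit. -/
noncomputable def dfc (d : ℝ) (ρ : V × V → ℝ) : ℝ := 𝔼 v : V, max (d - 𝔼 b, ρ (v, b)) 0

lemma dfc_nonneg (d : ℝ) (ρ : V × V → ℝ) : 0 ≤ dfc d ρ := expect_nonneg fun _ _ => le_max_right _ _

lemma dfc_cut (d : ℝ) (ρ w : V × V → ℝ) : dfc d w ≤ dfc d ρ + cut fun e => ρ e - w e := by
  have h := cut_sep (fun e => ρ e - w e) (g1 := fun a => ind (0 ≤ 𝔼 b, (ρ (a, b) - w (a, b))))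
    (g2 := fun _ => 1) (fun _ => ⟨ind_nonneg _, ind_le_one _⟩) fun _ => ⟨zero_le_one, le_rfl⟩
  rw [Cut_e1 _ (fun a => ind (0 ≤ 𝔼 b, (ρ (a, b) - w (a, b)))) fun _ => 1] at h
  simp only [mul_one] at h
  refine le_trans ?_ (add_le_add le_rfl ((le_abs_self _).trans h))
  rw [dfc, dfc, ← expect_add_distrib]
  refine ex_mono fun a => ?_
  have h1 := le_max_left (d - 𝔼 b, ρ (a, b)) 0
  have h2 := le_max_right (d - 𝔼 b, ρ (a, b)) 0
  by_cases e : 0 ≤ 𝔼 b, (ρ (a, b) - w (a, b))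
  · rw [ind_pos e]
    rw [expect_sub_distrib] at e ⊢
    exact max_le (by linarith) (by linarith)
  · rw [ind_neg e]
    rw [expect_sub_distrib] at e
    exact max_le (by linarith) (by linarith)

lemma cut_swap (f : V × V → ℝ) : cut (fun e => f e.swap) ≤ cut f := by
  refine cut_le fun t => le_of_eq_of_le (congrArg _ ?_) (le_cut f t.swap)
  exact Fintype.expect_equiv (Equiv.prodComm V V) _ _ fun e => by
    rw [Equiv.prodComm_apply, ct, ct, mul_comm (ind _)]
    rfl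

section det

variable {E0 EZ : Type} [Fintype E0] [DecidableEq E0] [Fintype EZ] [DecidableEq EZ]
  (eb : E0 ⊕ EZ → VB × VB)

lemma cr_root (f : EZ) (hne : (eb (.inr f)).1 ≠ (eb (.inr f)).2) (a ν : E0 ⊕ EZ → V × V → ℝ)
    (ha : ∀ g e, 0 ≤ a g e ∧ a g e ≤ ν g e) {κ T : ℝ} (hκ : 0 ≤ κ) (hT : 0 < T)
    (φ : V × V → ℝ) (hφ : Unit01 φ) :
    𝔼 x : VB → V, (∏ g, a (.inl g) (exf eb x (.inl g))) * φ (exf eb x (.inr f)) ≤
      T * (𝔼 e, φ e) + S2 eb (.inr f) (fun g e => ν g e + 1) κ / T := by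
  rw [Cut_upd (eb (.inr f)).1 (eb (.inr f)).2, S2, mul_expect, expect_div, ← expect_add_distrib]
  refine ex_mono fun e => ?_
  have h1 : ∀ x : VB → V, exf eb (upd eb (.inr f) x e) (.inr f) = e := fun x => by
    simp only [exf, upd, Function.update_self, Function.update_of_ne hne]
  set A : (VB → V) → ℝ := fun x => ∏ g, a (.inl g) (exf eb (upd eb (.inr f) x e) (.inl g)) with hA
  have hA0 : ∀ x, 0 ≤ A x := fun x => prod_nonneg fun g _ => (ha _ _).1
  have hν : ∀ g e, 0 ≤ ν g e := fun g e => (ha g e).1.trans (ha g e).2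
  have h2 : (𝔼 x, A x) ^ 2 ≤ 𝔼 x : VB → V, 𝔼 x' : VB → V, (ν (.inr f) e + 1) *
      ∏ g ∈ univ.erase (.inr f), ((ν g (exf eb (upd eb (.inr f) x e) g) + 1) *
        (ν g (exf eb (upd eb (.inr f) x' e) g) + 1) + κ * (ν g (exf eb (upd eb (.inr f) x e) g) + 1) *
        ind (exf eb (upd eb (.inr f) x e) g = exf eb (upd eb (.inr f) x' e) g)) := by
    rw [sq, Fintype.expect_mul_expect]
    refine ex_mono fun x => ex_mono fun x' => ?_
    let t : E0 ⊕ EZ → ℝ := Sum.elim (fun g => a (.inl g) (exf eb (upd eb (.inr f) x e) (.inl g)) *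
      a (.inl g) (exf eb (upd eb (.inr f) x' e) (.inl g))) fun _ => 1
    have h3 : A x * A x' = ∏ g ∈ univ.erase (.inr f), t g := by
      rw [prod_erase _ (rfl : t (.inr f) = 1), Fintype.prod_sum_type]
      simp only [t, Sum.elim_inl, Sum.elim_inr, prod_const_one, mul_one, prod_mul_distrib, hA]
    have h4 : ∀ g, 0 ≤ t g := by
      rintro (g | g)
      · exact mul_nonneg (ha _ _).1 (ha _ _).1
      · exact zero_le_one
    rw [h3]
    refine le_trans (prod_le_prod (fun g _ => h4 g) fun g _ => ?_)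
      (le_mul_of_one_le_left (prod_nonneg fun g _ => ?_) (by linarith [hν (.inr f) e]))
    · have b1 := hν g (exf eb (upd eb (.inr f) x e) g)
      have b2 := hν g (exf eb (upd eb (.inr f) x' e) g)
      refine le_trans ?_ (le_add_of_nonneg_right (mul_nonneg (by positivity) (ind_nonneg _)))
      rcases g with g | g
      · exact mul_le_mul (by linarith [(ha (.inl g) (exf eb (upd eb (.inr f) x e) (.inl g))).2])
          (by linarith [(ha (.inl g) (exf eb (upd eb (.inr f) x' e) (.inl g))).2]) (ha _ _).1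
          (by positivity)
      · exact one_le_mul_of_one_le_of_one_le (by linarith) (by linarith)
    · have b1 := hν g (exf eb (upd eb (.inr f) x e) g)
      have b2 := hν g (exf eb (upd eb (.inr f) x' e) g)
      have := ind_nonneg (exf eb (upd eb (.inr f) x e) g = exf eb (upd eb (.inr f) x' e) g)
      positivity
  have h5 : 𝔼 x : VB → V, (∏ g, a (.inl g) (exf eb (upd eb (.inr f) x e) (.inl g))) *
      φ (exf eb (upd eb (.inr f) x e) (.inr f)) = (𝔼 x, A x) * φ e := by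
    simp only [h1, expect_mul, hA]
  refine h5.trans_le (le_trans ?_ (add_le_add le_rfl (div_le_div_of_nonneg_right h2 hT.le)))
  have h6 : 0 ≤ 𝔼 x, A x := expect_nonneg fun x _ => hA0 x
  generalize (𝔼 x, A x) = c at h6
  have h7 : c ≤ T + c ^ 2 / T := by
    rw [← sub_le_iff_le_add', le_div_iff₀ hT]; nlinarith [sq_nonneg (c - T), mul_nonneg h6 hT.le]
  have h8 := mul_le_mul_of_nonneg_right h7 (hφ e).1
  have h9 := mul_le_of_le_one_right (by positivity : 0 ≤ c ^ 2 / T) (hφ e).2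
  linarith

theorem cr_scl (hne : ∀ f, (eb (.inr f)).1 ≠ (eb (.inr f)).2)
    (ν : E0 ⊕ EZ → V × V → ℝ) {Q Mx C : ℝ} {m K : ℕ} (hQ : 1 ≤ Q) (hM : 0 < Mx) (hK : 0 < K)
    (hm : 0 < m) (hνQ : ∀ f, 𝔼 e, ν f e ≤ Q)
    (hS : ∀ f, S2 eb (.inr f) (fun g e => ν g e + 1) (Q * (Fintype.card V : ℝ) ^ 2 / K) ≤ C)
    (hP : ∀ f c, 𝔼 e, (ν (.inr f) e - 1) *
      max (bsum m (tests eb Q Mx K (.inr f) fun _ => 1) c e) 0 ≤ 1 / 2)
    (a : E0 ⊕ EZ → V × V → ℝ) (ha : ∀ f e, 0 ≤ a f e ∧ a f e ≤ ν f e) :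
    ∃ w : EZ → V × V → ℝ, (∀ f, Unit01 (w f)) ∧ (∀ f, cut (fun e => a (.inr f) e - w f e) ≤ 1 / m) ∧
      |Lam eb (fun _ => 1) a - Lam eb (fun _ => 1) (Sum.elim (fun g => a (.inl g)) w)| ≤
        Fintype.card EZ * (Mx / m + C / Mx) := by
  have hQ0 : (0 : ℝ) < Q := lt_of_lt_of_le one_pos hQ
  have hD : Unit01 fun _ : VB → V => (1 : ℝ) := Cut_unit
  have hB : ∀ f : EZ, ∃ c, ∀ t, |𝔼 e, (a (.inr f) e -
      clip (bsum m (tests eb Q Mx K (.inr f) fun _ => 1) c e)) *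
      tests eb Q Mx K (.inr f) (fun _ => 1) t e| ≤ 1 / m := fun f =>
    boost m hm (tests eb Q Mx K (.inr f) fun _ => 1)
      (fun t e => abs_le.2 ⟨by linarith only [(tests_unit eb hQ0.le hM K (.inr f) hD t e).1],
        (tests_unit eb hQ0.le hM K (.inr f) hD t e).2⟩) (Sum.inr (∅, ∅))
      (fun e => by
        change ind _ * ind _ = 0
        rw [ind_neg (notMem_empty _), zero_mul]) (ν (.inr f)) (a (.inr f)) (ha _) (hP f)
  choose c hc2 using hB
  obtain ⟨w2, hw2⟩ : ∃ w2 : EZ → V × V → ℝ,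
      ∀ f e, w2 f e = clip (bsum m (tests eb Q Mx K (.inr f) fun _ => 1) (c f) e) :=
    ⟨_, fun _ _ => rfl⟩
  have hu : ∀ f, Unit01 (w2 f) := fun f e => by rw [hw2]; exact clip_unit _
  have ht : ∀ f t, |𝔼 e, (a (.inr f) e - w2 f e) * tests eb Q Mx K (.inr f) (fun _ => 1) t e| ≤
      1 / m := fun f t => by simp only [hw2]; exact hc2 f t
  have hν : ∀ f e, 0 ≤ ν f e := fun f e => (ha f e).1.trans (ha f e).2
  refine ⟨w2, hu, fun f => cut_le fun t => ht f (Sum.inr t), ?_⟩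
  have h1 : ∀ s : Finset EZ, |Lam eb (fun _ => 1) a - Lam eb (fun _ => 1)
      (Sum.elim (fun g => a (.inl g)) (s.piecewise w2 fun f => a (.inr f)))| ≤
      s.card * (Mx / m + C / Mx) := by
    intro s
    induction s using Finset.induction_on with
    | empty =>
      have : Sum.elim (fun g => a (.inl g)) (fun f => a (.inr f)) = a := by
        funext g; cases g <;> rfl
      simp [this]
    | insert f s hf ih =>
      have h2 := replace eb (.inr f) (hne f) hD
        (Sum.elim (fun g => a (.inl g)) (s.piecewise w2 fun f => a (.inr f)))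
        (fun g e => ν g e + 1) (w2 f) (γ := 1 / m) hQ0 hM hK
        (by
          rintro (g | g) e
          · exact ⟨(ha _ e).1, (ha (.inl g) e).2.trans (le_add_of_nonneg_right zero_le_one)⟩
          rw [Sum.elim_inr]
          by_cases hg : g ∈ s
          · rw [piecewise_eq_of_mem _ _ _ hg]
            exact ⟨(hu g e).1, by linarith only [(hu g e).2, hν (.inr g) e]⟩
          · rw [piecewise_eq_of_notMem _ _ _ hg]
            exact ⟨(ha _ e).1, by linarith only [(ha (.inr g) e).2]⟩)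
        (by
          rintro (g | g)
          · exact (ex_mono fun e => (ha _ e).2).trans (hνQ _)
          rw [Sum.elim_inr]
          by_cases hg : g ∈ s
          · rw [piecewise_eq_of_mem _ _ _ hg]
            exact ex_le hQ0.le fun e => (hu g e).2.trans hQ
          · rw [piecewise_eq_of_notMem _ _ _ hg]
            exact (ex_mono fun e => (ha _ e).2).trans (hνQ _))
        (fun e => ⟨(hu f e).1, by linarith only [(hu f e).2, hν (.inr f) e]⟩)
        (fun T => by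
          rw [Sum.elim_inr, piecewise_eq_of_notMem _ _ _ hf]
          exact ht f (Sum.inl T))
      rw [Sum.update_elim_inr, ← piecewise_insert] at h2
      rw [card_insert_of_notMem hf]
      have h3 := div_le_div_of_nonneg_right (hS f) hM.le
      have h4 := abs_sub_le (Lam eb (fun _ => 1) a) (Lam eb (fun _ => 1)
        (Sum.elim (fun g => a (.inl g)) (s.piecewise w2 fun f => a (.inr f))))
        (Lam eb (fun _ => 1)
          (Sum.elim (fun g => a (.inl g)) ((insert f s).piecewise w2 fun f => a (.inr f))))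
      have h5 : Mx * (1 / (m : ℝ)) = Mx / m := by ring
      push_cast
      linarith only [ih, h2, h3, h4, h5]
  have h2 := h1 univ
  rwa [piecewise_univ, card_univ] at h2

/-- The shape of a structure with a core on the roots `Rt` and a `D`-degenerate rest. -/
structure CrS (Rt : Finset VB) (D : ℕ) : Prop where
  ne : ∀ f, (eb (.inr f)).1 ≠ (eb (.inr f)).2
  core : ∀ g, (eb (.inl g)).1 ∈ Rt ∧ (eb (.inl g)).2 ∈ Rt
  out : ∀ f, (eb (.inr f)).1 ∉ Rt ∨ (eb (.inr f)).2 ∉ Rt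
  deg : ∀ U : Finset VB, U.Nonempty → Disjoint U Rt →
    ∃ u ∈ U, (crAt (fun f => eb (.inr f)) (Rt ∪ U) u).card ≤ D

theorem cr_det {Rt : Finset VB} {D : ℕ} (S : CrS eb Rt D)
    (ν : E0 ⊕ EZ → V × V → ℝ) {Q Mx C γ d θ β κ : ℝ} {m K : ℕ} (hQ : 1 ≤ Q) (hM : 0 < Mx)
    (hK : 0 < K) (hm : 0 < m) (hνQ : ∀ f, 𝔼 e, ν f e ≤ Q)
    (hS : ∀ f, S2 eb (.inr f) (fun g e => ν g e + 1) (Q * (Fintype.card V : ℝ) ^ 2 / K) ≤ C)
    (hP : ∀ f c, 𝔼 e, (ν (.inr f) e - 1) *
      max (bsum m (tests eb Q Mx K (.inr f) fun _ => 1) c e) 0 ≤ 1 / 2)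
    (a : E0 ⊕ EZ → V × V → ℝ) (ha : ∀ f e, 0 ≤ a f e ∧ a f e ≤ ν f e) (ρ : V × V → ℝ)
    (hρ : ∀ e, ρ e.swap = ρ e) (hc : ∀ f, cut (fun e => a (.inr f) e - ρ e) ≤ γ)
    (hη : dfc d ρ ≤ γ) (hθ : 0 < θ) (hd : d ≤ 1) (k0 : 0 ≤ κ) (k1 : κ ≤ 1)
    (hβ : Fintype.card EZ * (2 * (2 * γ + 1 / m)) / θ ≤ β)
    (hκ : D * (1 - (d - θ)) + β ≤ 1 - κ) :
    κ ^ Fintype.card VB * Lam (fun g => eb (.inl g)) (fun _ => 1) (fun g => a (.inl g)) ≤
      Lam eb (fun _ => 1) a + Fintype.card EZ * (Mx / m + 3 * (C / Mx) + 2 * (Mx * β)) := by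
  obtain ⟨w, hw, hcw, hL⟩ := cr_scl eb S.ne ν hQ hM hK hm hνQ hS hP a ha
  have hκ0 : (0 : ℝ) ≤ Q * (Fintype.card V : ℝ) ^ 2 / K := by positivity
  have c1 : ∀ f, cut (fun e => ρ e - w f e) ≤ γ + 1 / m := fun f => by
    have h := cut_tri ρ (a (.inr f)) (w f)
    rw [cut_comm ρ (a (.inr f))] at h
    linarith only [h, hc f, hcw f]
  set Sv : V → ℝ := fun v => ∑ f, (max (d - 𝔼 b, w f (v, b)) 0 + max (d - 𝔼 b, w f (b, v)) 0)
    with hSv
  have t0 : ∀ v f, 0 ≤ max (d - 𝔼 b, w f (v, b)) 0 + max (d - 𝔼 b, w f (b, v)) 0 := fun v f =>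
    add_nonneg (le_max_right _ _) (le_max_right _ _)
  have hB : 𝔼 v, ind (θ ≤ Sv v) ≤ β := by
    refine (ex_markov (fun v => sum_nonneg fun f _ => t0 v f) hθ).trans
      ((div_le_div_of_nonneg_right ?_ hθ.le).trans hβ)
    simp only [expect_sum_comm, expect_add_distrib]
    rw [← card_univ, ← nsmul_eq_mul]
    refine sum_le_card_nsmul _ _ _ fun f _ => ?_
    have b1 : _ ≤ _ := dfc_cut d ρ (w f)
    have b2 : _ ≤ _ := dfc_cut d ρ fun e => w f e.swap
    have b3 := cut_swap fun e => ρ e - w f e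
    simp only [hρ] at b3
    unfold dfc at b1 b2 hη
    simp only [Prod.swap_prod_mk] at b2
    linarith only [b1, b2, b3, c1 f, hη]
  have hg : ∀ f v, ¬ θ ≤ Sv v → d - θ ≤ 𝔼 b, w f (v, b) ∧ d - θ ≤ 𝔼 b, w f (b, v) := by
    intro f v hv
    have b1 := (single_le_sum (fun f _ => t0 v f) (mem_univ f)).trans_lt (not_le.1 hv)
    constructor <;> linarith only [b1, le_max_left (d - 𝔼 b, w f (v, b)) 0,
      le_max_right (d - 𝔼 b, w f (v, b)) 0, le_max_left (d - 𝔼 b, w f (b, v)) 0,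
      le_max_right (d - 𝔼 b, w f (b, v)) 0]
  have b0 : 0 ≤ β := le_trans (expect_nonneg fun _ _ => ind_nonneg _) hB
  set A0 : (VB → V) → ℝ := fun x => ∏ g, a (.inl g) (exf eb x (.inl g)) with hA0
  have a0 : ∀ x, 0 ≤ A0 x := fun x => prod_nonneg fun g _ => (ha _ _).1
  set G : (VB → V) → Prop := fun x => ∀ f, ((eb (.inr f)).1 ∈ Rt → ¬ θ ≤ Sv (x (eb (.inr f)).1)) ∧
    ((eb (.inr f)).2 ∈ Rt → ¬ θ ≤ Sv (x (eb (.inr f)).2)) with hG
  have h1 := cr_ext (fun f => eb (.inr f)) S.ne Rt S.out S.deg w hw (fun v => θ ≤ Sv v)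
    (by linarith only [hd, hθ] : d - θ ≤ 1) k0 (fun f v h => (hg f v h).1)
    (fun f v h => (hg f v h).2) hB hκ (fun x => A0 x * ind (G x))
    (fun x => mul_nonneg (a0 x) (ind_nonneg _)) (fun x u b hu => by
      have e : ∀ r ∈ Rt, Function.update x u b r = x r := fun r hr =>
        Function.update_of_ne (fun h : r = u => hu (h ▸ hr)) _ _
      refine congrArg₂ _ (prod_congr rfl fun g _ => ?_) (ind_congr (forall_congr' fun f => ?_))
      · rw [exf, exf, e _ (S.core g).1, e _ (S.core g).2]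
      · exact and_congr (forall_congr' fun h => by rw [e _ h]) (forall_congr' fun h => by rw [e _ h]))
    (fun x hx => by
      by_contra h
      exact right_ne_zero_of_mul hx (ind_neg h)) Rtᶜ disjoint_compl_left
  have h2 : 𝔼 x : VB → V, A0 x * ind (G x) * ((∏ f ∈ crIn (fun f => eb (.inr f)) (Rt ∪ Rtᶜ),
      w f (exf (fun f => eb (.inr f)) x f)) * ∏ u ∈ Rtᶜ, ind (¬ θ ≤ Sv (x u))) ≤
      Lam eb (fun _ => 1) (Sum.elim (fun g => a (.inl g)) w) := by
    refine ex_mono fun x => ?_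
    rw [one_mul, Fintype.prod_sum_type, union_compl, crIn, filter_true_of_mem fun f _ =>
      ⟨mem_univ _, mem_univ _⟩]
    have b1 : 0 ≤ ∏ f, w f (exf (fun f => eb (.inr f)) x f) := prod_nonneg fun f _ => (hw f _).1
    exact mul_le_mul (mul_le_of_le_one_right (a0 x) (ind_le_one _))
      (mul_le_of_le_one_right b1 (prod_le_one (fun _ _ => ind_nonneg _) fun _ _ => ind_le_one _))
      (mul_nonneg b1 (prod_nonneg fun _ _ => ind_nonneg _)) (a0 x)
  have h3 : 𝔼 x, A0 x ≤ (𝔼 x, A0 x * ind (G x)) +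
      Fintype.card EZ * (2 * (Mx * β + C / Mx)) := by
    have b1 : ∀ x, A0 x ≤ A0 x * ind (G x) + ∑ f, (A0 x * ind (θ ≤ Sv (exf eb x (.inr f)).1) +
        A0 x * ind (θ ≤ Sv (exf eb x (.inr f)).2)) := fun x => by
      have b2 : ∀ f, 0 ≤ A0 x * ind (θ ≤ Sv (exf eb x (.inr f)).1) := fun f =>
        mul_nonneg (a0 x) (ind_nonneg _)
      have b3 : ∀ f, 0 ≤ A0 x * ind (θ ≤ Sv (exf eb x (.inr f)).2) := fun f =>
        mul_nonneg (a0 x) (ind_nonneg _)
      by_cases h : G x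
      · rw [ind_pos h, mul_one]
        exact le_add_of_nonneg_right (sum_nonneg fun f _ => add_nonneg (b2 f) (b3 f))
      · rw [ind_neg h, mul_zero, zero_add]
        obtain ⟨f, hf⟩ := not_forall.1 h
        refine le_trans ?_ (single_le_sum (fun f _ => add_nonneg (b2 f) (b3 f)) (mem_univ f))
        by_cases e : θ ≤ Sv (exf eb x (.inr f)).1
        · rw [ind_pos e, mul_one]; exact le_add_of_nonneg_right (b3 f)
        · have e2 : θ ≤ Sv (exf eb x (.inr f)).2 := by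
            by_contra e2
            exact hf ⟨fun _ => e, fun _ => e2⟩
          rw [ind_pos e2, mul_one]; exact le_add_of_nonneg_left (b2 f)
    refine (ex_mono b1).trans ?_
    simp only [expect_add_distrib, expect_sum_comm]
    rw [← card_univ (α := EZ), ← nsmul_eq_mul]
    refine add_le_add le_rfl (sum_le_card_nsmul _ _ _ fun f _ => ?_)
    have r1 := cr_root eb f (S.ne f) a ν ha hκ0 hM (fun e => ind (θ ≤ Sv e.1)) fun _ => Lay_ind _
    have r2 := cr_root eb f (S.ne f) a ν ha hκ0 hM (fun e => ind (θ ≤ Sv e.2)) fun _ => Lay_ind _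
    have r3 : 𝔼 e : V × V, ind (θ ≤ Sv e.1) ≤ β := (P1_fst fun v => ind (θ ≤ Sv v)).symm.trans_le hB
    have r4 : 𝔼 e : V × V, ind (θ ≤ Sv e.2) ≤ β := by
      rw [ex_prod]; exact ex_le b0 fun _ => hB
    have r5 := div_le_div_of_nonneg_right (hS f) hM.le
    have r6 := mul_le_mul_of_nonneg_left r3 hM.le
    have r7 := mul_le_mul_of_nonneg_left r4 hM.le
    linarith only [r1, r2, r5, r6, r7]
  have h4 : Lam (fun g => eb (.inl g)) (fun _ => 1) (fun g => a (.inl g)) = 𝔼 x, A0 x :=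
    expect_congr rfl fun x _ => one_mul _
  have h5 : 0 ≤ 𝔼 x, A0 x * ind (G x) := expect_nonneg fun x _ => mul_nonneg (a0 x) (ind_nonneg _)
  have h6 : κ ^ Fintype.card VB ≤ κ ^ Rtᶜ.card := pow_le_pow_of_le_one k0 k1 (card_le_univ _)
  have h7 : κ ^ Fintype.card VB ≤ 1 := pow_le_one₀ k0 k1
  have h8 := mul_le_mul_of_nonneg_left h3 (pow_nonneg k0 (Fintype.card VB))
  have h9 := mul_le_mul_of_nonneg_right h6 h5
  have b1 : 0 ≤ Fintype.card EZ * (2 * (Mx * β + C / Mx)) := by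
    rcases isEmpty_or_nonempty EZ with h | ⟨⟨f⟩⟩
    · simp
    · have : 0 ≤ C := le_trans (CL_S2_nonneg eb _ (fun g e => by
        linarith [(ha g e).1, (ha g e).2]) hκ0) (hS f)
      positivity
  have b2 := mul_le_of_le_one_left b1 h7
  rw [h4]
  linarith only [h1, h2, h8, h9, b2, (abs_le.1 hL).1]

end det

end Pool.Agent.Work.MP_d4a230_co.U
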