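import Pool.Agent.Work.MP_d4a230_co.C.Psi

/-!
Assembly in counting form.
-/

namespace Pool.Agent.Work.MP_d4a230_co.U

open Finset Filter Topology Pool.Agent.Work.MP_07f1b5_pr
open scoped BigOperators

set_option linter.unusedSectionVars false

variable {W W0 : Type} [Fintype W] [DecidableEq W] [Fintype W0] [DecidableEq W0]
  {H : SimpleGraph W} [DecidableRel H.Adj] {F : SimpleGraph W0} [DecidableRel F.Adj]

variable (H F) in
/-- `F` is an induced subgraph of `H` and every other vertex set has smaller 2-density. -/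
structure Core (φ : W0 ↪ W) : Prop where
  adj : ∀ a b, H.Adj (φ a) (φ b) ↔ F.Adj a b
  h3 : 3 ≤ Fintype.card W0
  hk : Fintype.card W0 ≤ F.edgeFinset.card
  bal : ∀ U : Finset W, 3 ≤ U.card → U ≠ univ.map φ →
    ((ein H.edgeFinset U : ℤ) - 1) * ((Fintype.card W0 : ℤ) - 2) <
      ((F.edgeFinset.card : ℤ) - 1) * ((U.card : ℤ) - 2)

variable (H) in
/-- Degeneracy over the image of `φ`, counted in edges. -/
def EDeg (φ : W0 ↪ W) (D : ℕ) : Prop :=
  ∀ U : Finset W, U.Nonempty → Disjoint U (univ.map φ) → ∃ u ∈ U,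
    (H.edgeFinset.filter fun e => e.toFinset ⊆ univ.map φ ∪ U ∧ u ∈ e).card ≤ D

variable (H) in
/-- The edges that leave the core. -/
abbrev CZ (φ : W0 ↪ W) : Type := {e : Sym2 W // e ∈ H.edgeFinset ∧ ¬ e.toFinset ⊆ univ.map φ}

variable (H F) in
/-- Endpoints of all edges. -/
noncomputable def ceb (φ : W0 ↪ W) : F.edgeFinset ⊕ CZ H φ → W × W :=
  Sum.elim (fun g => (φ g.1.out.1, φ g.1.out.2)) fun f => f.1.out

variable (H F) in
/-- The edge of `H` with a given index. -/
def ced (φ : W0 ↪ W) : F.edgeFinset ⊕ CZ H φ → Sym2 W := Sum.elim (fun g => g.1.map φ) fun f => f.1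

variable {φ : W0 ↪ W} {D : ℕ}

lemma ceb_ed (f : F.edgeFinset ⊕ CZ H φ) : s((ceb H F φ f).1, (ceb H F φ f).2) = ced H F φ f := by
  rcases f with g | f
  · exact (Sym2.map_mk _ _ _).symm.trans (congrArg _ (Dens_out g.1))
  · exact Dens_out f.1

lemma map_sub (e : Sym2 W0) : (e.map φ).toFinset ⊆ univ.map φ := fun x hx => by
  obtain ⟨a, -, rfl⟩ := Sym2.mem_map.1 (Sym2.mem_toFinset.1 hx)
  exact mem_map_of_mem _ (mem_univ a)

lemma ced_inj : Function.Injective (ced H F φ) := by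
  rintro (g | f) (g2 | f2) h
  · exact congrArg _ (Subtype.ext (Sym2.map.injective φ.injective h))
  · exact absurd (map_sub g.1) fun e => f2.2.2 ((show g.1.map φ = f2.1 from h) ▸ e)
  · exact absurd (map_sub g2.1) fun e => f.2.2 ((show g2.1.map φ = f.1 from h.symm) ▸ e)
  · exact congrArg _ (Subtype.ext h)

lemma Core.map_mem (C : Core H F φ) {e : Sym2 W0} : e.map φ ∈ H.edgeFinset ↔ e ∈ F.edgeFinset := by
  induction e using Sym2.ind with
  | _ a b => simpa using C.adj a b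

lemma Core.ced_mem (C : Core H F φ) (f : F.edgeFinset ⊕ CZ H φ) : ced H F φ f ∈ H.edgeFinset := by
  rcases f with g | f
  exacts [C.map_mem.2 g.2, f.2.1]

lemma Core.ced_surj (C : Core H F φ) (e : Sym2 W) (he : e ∈ H.edgeFinset) :
    ∃ f, s((ceb H F φ f).1, (ceb H F φ f).2) = e := by
  simp only [ceb_ed]
  by_cases h : e.toFinset ⊆ univ.map φ
  · induction e using Sym2.ind with
    | _ a b =>
      obtain ⟨x, -, rfl⟩ := mem_map.1 (h (Sym2.mem_toFinset.2 (Sym2.mem_mk_left a b)))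
      obtain ⟨z, -, rfl⟩ := mem_map.1 (h (Sym2.mem_toFinset.2 (Sym2.mem_mk_right _ b)))
      exact ⟨.inl ⟨s(x, z), C.map_mem.1 he⟩, rfl⟩
  · exact ⟨.inr ⟨e, he, h⟩, rfl⟩

lemma ced_fin (f : F.edgeFinset ⊕ CZ H φ) :
    (ced H F φ f).toFinset = {(ceb H F φ f).1, (ceb H F φ f).2} := by
  rw [← ceb_ed, Sym2.toFinset_mk_eq]

lemma Core.ne (C : Core H F φ) (f : F.edgeFinset ⊕ CZ H φ) : (ceb H F φ f).1 ≠ (ceb H F φ f).2 :=
  fun h => H.not_isDiag_of_mem_edgeFinset (C.ced_mem f) (ceb_ed f ▸ Sym2.mk_isDiag_iff.2 h)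

lemma Core.crs (C : Core H F φ) (hD : EDeg H φ D) : CrS (ceb H F φ) (univ.map φ) D := by
  refine ⟨fun f => C.ne _, fun g => ⟨mem_map_of_mem _ (mem_univ _), mem_map_of_mem _ (mem_univ _)⟩,
    fun f => ?_, fun U h1 h2 => ?_⟩
  · by_contra h
    rw [not_or, not_not, not_not] at h
    refine f.2.2 (le_of_eq_of_le (ced_fin (F := F) (.inr f)) ?_)
    exact insert_subset h.1 (singleton_subset_iff.2 h.2)
  · obtain ⟨u, hu, h⟩ := hD U h1 h2
    refine ⟨u, hu, le_trans (card_le_card_of_injOn (fun f => f.1) (fun f hf => ?_)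
      Subtype.val_injective.injOn) h⟩
    obtain ⟨a1, a2⟩ := mem_filter.1 (mem_coe.1 hf)
    have a3 := (mem_filter.1 a1).2
    refine mem_coe.2 (mem_filter.2 ⟨f.2.1, le_of_eq_of_le (ced_fin (F := F) (.inr f))
      (insert_subset a3.1 (singleton_subset_iff.2 a3.2)), ?_⟩)
    rw [← Sym2.mem_toFinset]
    refine (ced_fin (F := F) (.inr f)).ge ?_
    rcases a2 with e | e
    · exact mem_insert.2 (Or.inl e.symm)
    · exact mem_insert.2 (Or.inr (mem_singleton.2 e.symm))

lemma Core.dc (C : Core H F φ) {K : ℕ} (hK : F.edgeFinset.card ≤ K) (f : CZ H φ)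
    (A : Finset (F.edgeFinset ⊕ CZ H φ)) (hf : .inr f ∉ A) (hA : A.Nonempty) :
    (Fintype.card W0 - 2) * A.card <
      (K - 1) * (vset (ceb H F φ) A \ vset (ceb H F φ) {.inr f}).card := by
  have v1 : ∀ g, vset (ceb H F φ) {g} = (ced H F φ g).toFinset := fun g => by
    rw [vset, singleton_biUnion, ced_fin]
  have v2 : ∀ g ∈ A, (ced H F φ g).toFinset ⊆ vset (ceb H F φ) A := fun g hg => by
    rw [ced_fin]
    exact subset_biUnion_of_mem (fun g => {(ceb H F φ g).1, (ceb H F φ g).2}) hg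
  have nd : ∀ g, ¬ (ced H F φ g).IsDiag := fun g => H.not_isDiag_of_mem_edgeFinset (C.ced_mem g)
  rw [v1]
  set S := vset (ceb H F φ) A \ (ced H F φ (.inr f)).toFinset with hS
  set U := vset (ceb H F φ) A ∪ (ced H F φ (.inr f)).toFinset with hU
  have c1 : S.card + 2 = U.card := by
    rw [← Sym2.card_toFinset_of_not_isDiag _ (nd (.inr f))]
    exact card_sdiff_add_card _ _
  have c2 : 0 < S.card := by
    obtain ⟨g, hg⟩ := hA
    refine card_pos.2 (sdiff_nonempty.2 fun h => hf ?_)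
    have := ced_inj (sym2_eq_of_subset (nd g) fun x hx =>
      Sym2.mem_toFinset.1 (h (v2 g hg (Sym2.mem_toFinset.2 hx))))
    exact this ▸ hg
  have c3 : A.card + 1 ≤ ein H.edgeFinset U := by
    rw [← card_insert_of_notMem hf]
    refine card_le_card_of_injOn (ced H F φ) (fun g hg => mem_coe.2 (mem_filter.2
      ⟨C.ced_mem g, ?_⟩)) ced_inj.injOn
    rcases mem_insert.1 (mem_coe.1 hg) with rfl | hg
    exacts [subset_union_right, (v2 g hg).trans subset_union_left]
  have c4 := C.bal U (by omega) fun h => f.2.2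
    (le_of_le_of_eq (subset_union_right : (ced H F φ (.inr f)).toFinset ⊆ U) h)
  have h3 := C.h3
  have hk := C.hk
  have c5 : (A.card : ℤ) + 1 ≤ ein H.edgeFinset U := by exact_mod_cast c3
  have c6 : (F.edgeFinset.card : ℤ) ≤ K := by exact_mod_cast hK
  have c7 : (3 : ℤ) ≤ Fintype.card W0 := by exact_mod_cast h3
  rw [← c1] at c4
  zify [show 2 ≤ Fintype.card W0 by omega, show 1 ≤ K by omega]
  push_cast at c4
  nlinarith only [c4, c5, c6, c7, Int.natCast_nonneg S.card]

lemma Core.hbal (C : Core H F φ) : HBal F := by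
  refine ⟨C.h3, C.hk, fun U u1 u2 => ?_⟩
  have c1 := C.bal (U.map φ) (by rwa [card_map]) fun h => by
    have := congrArg card h
    rw [card_map, card_map, card_univ] at this
    omega
  have c2 : ein F.edgeFinset U ≤ ein H.edgeFinset (U.map φ) :=
    card_le_card_of_injOn (Sym2.map φ) (fun e he => by
      obtain ⟨a1, a2⟩ := mem_filter.1 (mem_coe.1 he)
      refine mem_coe.2 (mem_filter.2 ⟨C.map_mem.2 a1, fun x hx => ?_⟩)
      obtain ⟨a, ha, rfl⟩ := Sym2.mem_map.1 (Sym2.mem_toFinset.1 hx)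
      exact mem_map_of_mem _ (a2 (Sym2.mem_toFinset.2 ha))) (Sym2.map.injective φ.injective).injOn
  have c3 : (ein F.edgeFinset U : ℤ) ≤ ein H.edgeFinset (U.map φ) := by exact_mod_cast c2
  have c7 : (3 : ℤ) ≤ Fintype.card W0 := by exact_mod_cast C.h3
  rw [card_map] at c1
  nlinarith only [c1, c3, c7]

lemma Core.edeg (C : Core H F φ) : EDeg H φ (2 * F.edgeFinset.card - 3) := by
  intro U h1 h2
  by_contra hc
  push Not at hc
  have h3 := C.h3
  have hk := C.hk
  set E1 := H.edgeFinset.filter fun e => e.toFinset ⊆ univ.map φ ∪ U with hE1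
  set E2 := E1 \ F.edgeFinset.image (Sym2.map φ) with hE2
  have c1 : E2.card + F.edgeFinset.card = ein H.edgeFinset (univ.map φ ∪ U) := by
    rw [← card_image_of_injective F.edgeFinset (Sym2.map.injective φ.injective)]
    exact card_sdiff_add_card_eq_card (image_subset_iff.2 fun e he =>
      mem_filter.2 ⟨C.map_mem.2 he, (map_sub e).trans subset_union_left⟩)
  have c2 : (univ.map φ ∪ U).card = Fintype.card W0 + U.card := by
    rw [card_union_of_disjoint h2.symm, card_map, card_univ]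
  have c0 := card_pos.2 h1
  have c3 := C.bal (univ.map φ ∪ U) (by omega) fun h => by
    have := congrArg card h
    rw [c2, card_map, card_univ] at this
    omega
  have c4 : ∀ u ∈ U, 2 * F.edgeFinset.card - 2 ≤ (E2.filter fun e => u ∈ e).card := fun u hu => by
    refine le_trans (by have := hc u hu; omega) (card_le_card (s := H.edgeFinset.filter fun e =>
      e.toFinset ⊆ univ.map φ ∪ U ∧ u ∈ e) fun e he => ?_)
    obtain ⟨a1, a2, a3⟩ := mem_filter.1 he
    refine mem_filter.2 ⟨mem_sdiff.2 ⟨mem_filter.2 ⟨a1, a2⟩, fun h => ?_⟩, a3⟩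
    obtain ⟨g, -, rfl⟩ := mem_image.1 h
    exact disjoint_left.1 h2 hu (map_sub g (Sym2.mem_toFinset.2 a3))
  have c5 : ∑ u ∈ U, (E2.filter fun e => u ∈ e).card ≤ E2.card * 2 := by
    simp only [card_filter]
    rw [sum_comm]
    refine sum_le_card_nsmul _ _ 2 fun e _ => ?_
    rw [← card_filter]
    refine (card_le_card (t := e.toFinset) fun u hu =>
      Sym2.mem_toFinset.2 (mem_filter.1 hu).2).trans ?_
    rw [Sym2.card_toFinset]
    split_ifs <;> omega
  have c6 := (card_nsmul_le_sum _ _ _ c4).trans c5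
  rw [smul_eq_mul] at c6
  rw [← c1, c2] at c3
  zify [show 2 ≤ 2 * F.edgeFinset.card by omega] at c6
  have c7 : (3 : ℤ) ≤ Fintype.card W0 := by exact_mod_cast h3
  push_cast at c3
  nlinarith only [c3, c6, c7, Int.natCast_nonneg E2.card]

theorem cr_psi (C : Core H F φ) (hD : EDeg H φ D) {N : ℕ → ℕ} (R : Reg F ep1 id N fun _ => 1)
    {d : ℝ} (hd : d ≤ 1) (hD1 : D * (1 - d) < 1) {ε : ℝ} (hε : 0 < ε) :
    ∃ K : ℝ, 0 ≤ K ∧ ∀ᶠ n in atTop, 𝔼 y : Fin (N n) → Bool → Fin n, psK H F K d y ≤ ε := by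
  obtain ⟨κ, hκ, h⟩ := cr_count R (ceb H F φ) (C.crs hD) (C.dc R.bal.hK) hd hD1
  obtain ⟨c, c0, hc⟩ := R.rate_bd
  have hA := RegK_aut (H := F)
  have h3 := C.h3
  have hk := C.hk
  obtain ⟨c1, hc1⟩ : ∃ c1 : ℝ, c1 = (c * aut F + 1) / κ := ⟨_, rfl⟩
  have c2 : 0 < c1 := by rw [hc1]; positivity
  obtain ⟨γ, hγ, h⟩ := h (ε / (2 * c1)) (by positivity)
  refine ⟨1 / γ, by positivity, ?_⟩
  filter_upwards [h, hc, R.pos, (tendsto_natCast_atTop_atTop (R := ℝ)).eventually_ge_atTop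
    ((Fintype.card W : ℝ) ^ 2 / (ε / (2 * c1)))] with n ⟨err, e0, e1, e2⟩ r1 r2 r3
  simp only [id, Fintype.card_unique, mul_one] at r1 r2 e0 e1 e2
  have : Nonempty (Fin n) := ⟨⟨0, r2.1⟩⟩
  have hn : (0 : ℝ) < n := by exact_mod_cast r2.1
  have hN : (0 : ℝ) < N n := by exact_mod_cast r2.1.trans_le r2.2
  obtain ⟨g0, hg0⟩ := card_pos.1 (show 0 < F.edgeFinset.card by omega)
  have pt : ∀ y : Fin (N n) → Bool → Fin n, psK H F (1 / γ) d y ≤ c1 * (Cnt (ceb H F φ) (sp ep1 y)
      (fun x => ind (¬ Set.InjOn x (univ : Finset W))) (fun _ => univ) + err y) := fun y => by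
    have m1 := fun T => cnt_mono (ceb H F φ) (sp ep1 y) (T := fun _ => T) (T2 := fun _ => univ)
      (D := fun x => ind (¬ Set.InjOn x (univ : Finset W))) (fun _ => ind_nonneg _)
      (fun _ => le_rfl) fun _ => subset_univ _
    have m0 : 0 ≤ c1 * (Cnt (ceb H F φ) (sp ep1 y)
      (fun x => ind (¬ Set.InjOn x (univ : Finset W))) (fun _ => univ) + err y) :=
      mul_nonneg c2.le (add_nonneg (m1 univ).1 (e0 y))
    refine ps_le y m0 fun T hT => ?_
    have m2 := mul_nonneg (one_div_nonneg.2 hγ.le) (dfc_nonneg d (den (sp ep1 y) T))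
    by_cases e : dfc d (den (sp ep1 y) T) ≤ γ
    · have a1 := e2 y T e
      have a2 := cnt_add (ceb H F φ) (sp ep1 y) (fun x => ind (Function.Injective x))
        (fun x => ind (¬ Set.InjOn x (univ : Finset W))) fun _ => T
      rw [cr_zero _ C.ced_surj hT, zero_add] at a2
      simp only [coe_univ, Set.injOn_univ, ind_not, add_sub_cancel] at a2 m1 ⊢
      have a3 := cr_tau (F := F) (fun g : F.edgeFinset => g.1.out)
        (fun g g2 e => Subtype.ext ((Dens_out _).symm.trans (e.trans (Dens_out _))))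
        (fun g => (Dens_out g.1).symm ▸ g.2) ⟨g0, hg0⟩ (sp ep1 y) T
      have a4 : Cnt (fun g => ceb H F φ (.inl g)) (sp ep1 y) (fun _ => 1) (fun _ => T) =
          Cnt (fun g : F.edgeFinset => g.1.out) (sp ep1 y) (fun _ => 1) (fun _ => T) :=
        congrArg _ (ex_comp_inj φ φ.injective fun x : W0 → Fin n => 1 *
          ∑ ι : F.edgeFinset → Fin (N n) × Unit, ind (Function.Injective fun f => (ι f).1) *
          ∏ f, ind (ι f ∈ T) * hit (sp ep1 y (ι f)) (exf (fun g : F.edgeFinset => g.1.out) x f))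
      have a5 := (cnt_mono (fun g : F.edgeFinset => g.1.out) (sp ep1 y) (T := fun _ => T)
        (D := fun _ => 1) (fun _ => zero_le_one) (fun _ => le_rfl) fun _ => Subset.rfl).1
      rw [a4, a2] at a1
      generalize Cnt (fun g : F.edgeFinset => g.1.out) (sp ep1 y) (fun _ => 1) (fun _ => T) = X
        at a1 a3 a5
      simp only [Fintype.card_fin, Fintype.card_prod, Fintype.card_unique, mul_one,
        Fintype.card_coe] at a3
      have a6 : ((T.card : ℝ) - alF F (sp ep1 y) T) / N n ≤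
          rate F n (N n) 1 * aut F / F.edgeFinset.card * X := by
        obtain ⟨v, hv⟩ : ∃ v, Fintype.card W0 = v + 2 := ⟨Fintype.card W0 - 2, by omega⟩
        obtain ⟨k, hk2⟩ : ∃ k, F.edgeFinset.card = k + 1 := ⟨F.edgeFinset.card - 1, by omega⟩
        rw [← le_div_iff₀' (by positivity)] at a3
        refine (div_le_div_of_nonneg_right a3 hN.le).trans_eq ?_
        rw [rate, hv, hk2, Nat.add_sub_cancel, Nat.add_sub_cancel, div_pow, div_pow]
        field_simp
        ring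
      have a7 : rate F n (N n) 1 * aut F / F.edgeFinset.card ≤ c1 * κ := by
        rw [hc1, div_mul_cancel₀ _ hκ.ne']
        refine (div_le_self (mul_nonneg r1.1 hA.le) (by exact_mod_cast (by omega))).trans ?_
        linarith only [mul_le_mul_of_nonneg_right r1.2 hA.le]
      have a8 := mul_le_mul_of_nonneg_right a7 a5
      have a9 := mul_le_mul_of_nonneg_left (a1.trans (add_le_add (m1 T).2 le_rfl)) c2.le
      linarith only [a6, a8, a9, m2]
    · obtain ⟨R2, -, -, a3⟩ := al_opt (F := F) (by omega) (sp ep1 y) T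
      have a1 : ((T.card : ℝ) - alF F (sp ep1 y) T) / N n ≤ 1 := by
        have a2 : (T.card : ℝ) ≤ N n := by
          have := card_le_univ T
          rw [Fintype.card_prod, Fintype.card_fin, Fintype.card_unit, mul_one] at this
          exact_mod_cast this
        rw [div_le_one hN, a3]
        linarith only [a2, Nat.cast_nonneg (α := ℝ) R2.card]
      have a4 := mul_le_mul_of_nonneg_left (not_le.1 e).le (one_div_nonneg.2 hγ.le)
      rw [one_div_mul_cancel hγ.ne'] at a4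
      linarith only [a1, a4, m0]
  refine (ex_mono pt).trans ?_
  rw [← mul_expect, expect_add_distrib]
  have b1 := (cnt_one (G := Fin (N n)) (V := Fin n) (ceb H F φ) ep1 R.ne
    (D := fun x => ind (¬ Set.InjOn x (univ : Finset W))) fun _ => ind_nonneg _).trans
    (ex_not_inj univ)
  rw [card_univ, Fintype.card_fin] at b1
  rw [div_le_iff₀ (by positivity), mul_comm, ← div_le_iff₀ hn] at r3
  refine (mul_le_mul_of_nonneg_left (add_le_add (b1.trans r3) e1) c2.le).trans_eq ?_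
  field_simp
  norm_num

theorem cr_up (C : Core H F φ) (hD : EDeg H φ D) {p : ℕ → ℝ} {K0 : ℕ} {c : ℝ} (hc : 0 < c)
    (R0 : HReg p (fun n => copies F (Fin n)) (Fintype.card W0) F.edgeFinset.card K0 (copyRate F c)
      (c ^ (F.edgeFinset.card - 1))) {d d2 : ℝ} (d0 : 0 < d2) (d1 : d2 < d) (hd : d ≤ 1)
    (hD1 : D * (1 - d) < 1) (hF : Whp p fun n => HEv (copies F (Fin n)) (d2 * p n * n) 0) :
    Whp p fun n => HEv (copies H (Fin n)) (d * p n * n) 0 := by
  obtain ⟨N, hN, hS⟩ := size R0.p0 R0.p1 R0.inf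
  obtain ⟨R, -, hp, -⟩ := reg_real C.hbal hc R0 hN
  have hk : 0 < F.edgeFinset.card := by have := C.h3; have := C.hk; omega
  have hD0 : (0 : ℝ) ≤ D := Nat.cast_nonneg _
  obtain ⟨d3, d4, d5, d6⟩ : ∃ d3 : ℝ, d3 < d ∧ D * (1 - d3) < 1 ∧ 0 ≤ d3 := by
    have a1 : 0 < (1 - D * (1 - d)) / (D + 1) := div_pos (by linarith only [hD1]) (by positivity)
    have a2 : (D + 1) * ((1 - D * (1 - d)) / (D + 1)) = 1 - D * (1 - d) :=
      mul_div_cancel₀ _ (by positivity)
    refine ⟨max d2 (d - (1 - D * (1 - d)) / (D + 1)), max_lt d1 (by linarith only [a1]), ?_,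
      d0.le.trans (le_max_left _ _)⟩
    have a3 := mul_le_mul_of_nonneg_left
      (le_max_right d2 (d - (1 - D * (1 - d)) / (D + 1))) hD0
    linarith only [a1, a2, a3]
  refine (whp_iff R0.p0 R0.p1).2 fun β hβ => ?_
  obtain ⟨ε, hε⟩ : ∃ ε, ε = (d - d2) / 5 := ⟨_, rfl⟩
  have h0 : 0 < ε := by linarith only [hε, d1]
  obtain ⟨η, hη, h1⟩ := hlower_core R0 (ν := d) (d := d2) (b := β / 32) h0 (by linarith only [hε])
    (by linarith only [hε, hd, d1]) (by positivity) 0
  obtain ⟨K, hK, h2⟩ := cr_psi C hD R (d4.le.trans hd) d5 (ε := ε * η / 64) (by positivity)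
  have w1 : Whp p fun n ω => ∃ y : Fin (N n) → Bool → Fin n, Inj y ∧ (∀ i, sp ep1 y i ∈ ω) ∧
      ¬ ε * η / 64 ≤ |psK H F K d3 y - 𝔼 y2 : Fin (N n) → Bool → Fin n, psK H F K d3 y2| := by
    refine whp_of_iid R0.p0 R0.p1 hp R0.inf hN ((hS 1 one_pos).mono R0.p0 R0.p1
      (Eventually.of_forall fun _ _ h => h.1)) _ (c := (ε * η / 64) ^ 2 / (2 * (1 + K) ^ 2))
      (by positivity) ?_
    filter_upwards [hN.eventually (lt_mem_nhds zero_lt_one), eventually_gt_atTop 0] with n h1 h2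
    have : Nonempty (Fin n) := ⟨⟨0, h2⟩⟩
    have h3 : (0 : ℝ) < N n := Nat.cast_pos.2 (Nat.pos_of_ne_zero fun h => by simp [h] at h1)
    refine (mcdiarmid (psK H F K d3) (by positivity) (by positivity)
      fun y i b => ps_lip hk hK y i b).trans_eq ?_
    rw [Fintype.card_fin]
    congr 3
    field_simp
  have w2 := (hF.and R0.p0 R0.p1 (hS (ε * η / 32 / (1 + K)) (by positivity))).and R0.p0 R0.p1 w1
  have l1 := hN.mul_const d3
  filter_upwards [h1, h2, (whp_iff R0.p0 R0.p1).1 w2 (β / 2) (by positivity),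
    l1.eventually (gt_mem_nhds (show 1 * d3 < d by linarith only [d4])),
    hN.eventually (lt_mem_nhds zero_lt_one), hN.eventually (gt_mem_nhds one_lt_two),
    R0.inf.eventually (eventually_gt_atTop 0)] with n e0 e1 e5 e2 e3 e6 e4
  have h1 : (0 : ℝ) < N n := Nat.cast_pos.2 (Nat.pos_of_ne_zero fun h => by simp [h] at e3)
  have h2 : (0 : ℝ) < n := pos_of_mul_pos_right e4 (R0.p0 n) |> fun h => h
  have h3 : 0 < p n := pos_of_mul_pos_left e4 h2.le |> fun h => h
  have : Nonempty (Fin n) := ⟨⟨0, Nat.cast_pos.1 h2⟩⟩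
  refine le_trans (Pr_mono (R0.p0 n) (R0.p1 n) fun ω hω => (em _).imp_left ?_)
    ((Pr_or_le (R0.p0 n) (R0.p1 n) _ _).trans ((add_le_add e0 e5).trans (by linarith only [hβ])))
  rintro ⟨⟨g0, -, g1⟩, y, g2, g3, g4⟩
  unfold HEv at hω
  simp only [not_forall] at hω
  obtain ⟨ω2, g5, g6, g7, -⟩ := hω
  obtain ⟨R2, r1, r2, L, r3, r4, r5⟩ := cr_pt (d := d3) (t := ε * η / 32) hk hK g2 g3 g5 g6 h1 g7 g1
    (by
      rw [Fintype.card_fin]
      refine le_of_eq_of_le ?_ (mul_le_mul_of_nonneg_right e2.le e4.le) |>.trans_eq (by ring)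
      field_simp)
    (by linarith only [e1, (abs_lt.1 (not_le.1 g4)).2])
  refine ⟨g0, R2, r1, r2, fun v => d * p n * n - L v, fun _ => 0, ?_,
    fun v => (sub_zero _).trans_le (r4 v), ?_⟩
  · rw [sum_eq_zero fun _ _ => zero_pow two_ne_zero]
    exact mul_nonneg (Nat.cast_nonneg _) (sum_nonneg fun _ _ => ind_nonneg _)
  · have a0 := mul_pos h0 e4
    have a1 : ∀ v, ind (ε * (p n * n) ≤ |d * p n * n - L v - d * (p n * n)|) ≤
        L v / (ε * (p n * n)) := fun v => by
      rw [show d * p n * n - L v - d * (p n * n) = -L v by ring, abs_neg, abs_of_nonneg (r3 v)]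
      by_cases h : ε * (p n * n) ≤ L v
      · rw [ind_pos h]; exact (one_le_div a0).2 h
      · rw [ind_neg h]; exact div_nonneg (r3 v) a0.le
    refine (sum_le_sum fun v _ => a1 v).trans ?_
    rw [← sum_div, div_le_iff₀ a0]
    have a2 : ε * η / 32 / (1 + K) + ε * η / 32 + K * (ε * η / 32 / (1 + K)) = ε * η / 16 := by
      field_simp
      ring
    rw [div_div, div_lt_iff₀ (by positivity)] at e6
    rw [a2] at r5
    have a3 := mul_le_mul_of_nonneg_left e6.le (mul_pos h0 hη).le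
    linarith only [r5, a3]

variable {p : ℕ → unitInterval} {K0 : ℕ} {c : ℝ}

lemma cr_big {h k : ℕ} {μ Λ : ℝ} (R0 : HReg (fun n => p n) (fun n => copies F (Fin n)) h k K0 μ Λ)
    {d : ℝ} (hd : 1 < d) :
    Tendsto (fun n => Pr (p n : ℝ) (HEv (copies H (Fin n)) (d * p n * n) 0)) atTop (𝓝 1) :=
  hupper_prob R0.p0 R0.p1 R0.inf (hconc_E R0 (fun _ _ => univ) univ_card_lim 0)
    (fun n ω ω' h1 _ => Finset.sum_le_sum fun v _ => Finset.sum_le_sum fun a _ =>
      ind_mono fun h => ⟨h1 h, trivial⟩) (by simpa [hxs] using hd)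

theorem cr_main (C : Core H F φ) (hD : EDeg H φ D) (D1 : 1 ≤ D) (hc : 0 < c)
    (R0 : HReg (fun n => p n) (fun n => copies F (Fin n)) (Fintype.card W0) F.edgeFinset.card K0
      (copyRate F c) (c ^ (F.edgeFinset.card - 1))) :
    chromThreshold H p ∈ Set.Icc (turanThreshold F p) (max (turanThreshold F p) (1 - 1 / D)) := by
  constructor
  · rw [← chrom_eq_turan R0, hchrom_eq, hchrom_eq]
    refine csInf_le_csInf ⟨0, fun _ h => h.1.le⟩ ⟨2, two_pos, 0, cr_big R0 one_lt_two⟩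
      fun d ⟨d0, Cc, hd⟩ => ⟨d0, Cc, Whp.mono R0.p0 R0.p1 hd
        (Eventually.of_forall fun n ω h ω2 h1 h2 => h ω2 h1 fun T hT hs => ?_)⟩
    obtain ⟨f, -, rfl⟩ := mem_image.1 hT
    refine h2 _ (mem_image_of_mem _ (mem_univ (φ.trans f))) (Subset.trans ?_ hs)
    refine image_subset_iff.2 fun e he => mem_image.2 ⟨e.map φ, C.map_mem.2 he, ?_⟩
    rw [Sym2.map_map]
    rfl
  · rw [hchrom_eq]
    refine le_of_forall_gt_imp_ge_of_dense fun d hd => csInf_le ⟨0, fun _ h => h.1.le⟩ ?_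
    obtain ⟨h1, h2⟩ := max_lt_iff.1 hd
    rw [turan_eq] at h1
    obtain ⟨d2, ⟨d0, h3⟩, d1⟩ := exists_lt_of_csInf_lt
      (by exact ⟨2, two_pos, turan_mem R0 one_lt_two⟩) h1
    refine ⟨d0.trans d1, 0, ?_⟩
    by_cases e : d ≤ 1
    · have a1 : (0 : ℝ) < D := by exact_mod_cast D1
      refine cr_up C hD hc R0 d0 d1 e ?_ h3
      rw [← lt_div_iff₀' a1]
      linarith only [h2]
    · exact cr_big R0 (not_le.1 e)

end Pool.Agent.Work.MP_d4a230_co.U
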