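import Pool.Agent.Work.MP_d4a230_co.C.Dense

/-!
Second moments at the edges outside the core (the proofs follow Mom_match and mom_S2).
-/

namespace Pool.Agent.Work.MP_d4a230_co.U

open Finset Filter Topology Pool.Agent.Work.MP_07f1b5_pr
open scoped BigOperators

set_option linter.unusedSectionVars false

lemma cr_match {V VB EB : Type} [Fintype V] [DecidableEq V] [Nonempty V] [Fintype VB]
    [DecidableEq VB] [Fintype EB] [DecidableEq EB] (eb : EB → VB × VB) {v k : ℕ} (f : EB)
    (hDC : ∀ F : Finset EB, f ∉ F → F.Nonempty →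
      (v - 2) * F.card < (k - 1) * (vset eb F \ vset eb {f}).card)
    {κ : ℝ} (h0 : 0 ≤ κ)
    (hκ : ∀ a c : ℕ, a ≤ Fintype.card EB → c ≤ Fintype.card VB → (v - 2) * a < (k - 1) * c →
      κ ^ a ≤ (Fintype.card V : ℝ) ^ c) (e : V × V) (x : VB → V) :
    𝔼 x' : VB → V, ∏ g ∈ univ.erase f,
      (1 + κ * ind (Mom_M (exf eb (upd eb f x e) g) (exf eb (upd eb f x' e) g))) ≤
      2 ^ Fintype.card EB * (Fintype.card VB + 1) ^ Fintype.card VB := by
  have hV : (0 : ℝ) < Fintype.card V := by exact_mod_cast Fintype.card_pos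
  have hB : (1 : ℝ) ≤ Fintype.card VB + 1 := le_add_of_nonneg_left (Nat.cast_nonneg _)
  simp only [prod_one_add, expect_sum_comm]
  refine (sum_le_card_nsmul _ _ (((Fintype.card VB : ℝ) + 1) ^ Fintype.card VB)
    fun F hF => ?_).trans ?_
  · rcases F.eq_empty_or_nonempty with rfl | hne
    · simpa using one_le_pow₀ hB
    have hf : f ∉ F := fun h => by simpa using mem_powerset.1 hF h
    set S := vset eb F \ vset eb {f} with hS
    set A := univ.image (upd eb f x e)
    have h1 : ∀ x' : VB → V, ∏ g ∈ F,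
        κ * ind (Mom_M (exf eb (upd eb f x e) g) (exf eb (upd eb f x' e) g)) ≤
        κ ^ F.card * ind (∀ u ∈ S, x' u ∈ A) := fun x' => by
      by_cases hM : ∀ g ∈ F, Mom_M (exf eb (upd eb f x e) g) (exf eb (upd eb f x' e) g)
      · rw [prod_congr rfl fun g hg => by rw [ind_pos (hM g hg), mul_one], prod_const, ind_pos,
          mul_one]
        intro u hu
        simp only [hS, vset, Finset.mem_sdiff, Finset.mem_biUnion, Finset.mem_singleton,
          exists_eq_left, Finset.mem_insert, not_or] at hu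
        obtain ⟨⟨g, hg, hu⟩, u1, u2⟩ := hu
        have h2 : upd eb f x' e u = x' u := by
          rw [upd, Function.update_of_ne u2, Function.update_of_ne u1]
        obtain ⟨m1, m2⟩ := hM g hg
        rw [← h2]
        rcases hu with rfl | rfl
        · rcases m1 with m | m <;> exact mem_image.2 ⟨_, mem_univ _, m.symm⟩
        · rcases m2 with m | m <;> exact mem_image.2 ⟨_, mem_univ _, m.symm⟩
      · push Not at hM
        obtain ⟨g, hg, hM⟩ := hM
        rw [prod_eq_zero hg (by rw [ind_neg hM, mul_zero])]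
        exact mul_nonneg (pow_nonneg h0 _) (ind_nonneg _)
    refine (ex_mono h1).trans ?_
    rw [← mul_expect]
    have h3 : (A.card : ℝ) ≤ Fintype.card VB + 1 := by
      have : A.card ≤ Fintype.card VB := card_image_le
      exact_mod_cast this.trans (Nat.le_succ _)
    calc _ ≤ (Fintype.card V : ℝ) ^ S.card * ((A.card : ℝ) / Fintype.card V) ^ S.card :=
          mul_le_mul (hκ _ _ (card_le_univ _) (card_le_univ _) (hDC F hf hne)) (ex_mem_le S A)
            (expect_nonneg fun _ _ => ind_nonneg _) (by positivity)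
      _ = (A.card : ℝ) ^ S.card := by rw [← mul_pow, mul_div_cancel₀ _ hV.ne']
      _ ≤ ((Fintype.card VB : ℝ) + 1) ^ S.card := by gcongr
      _ ≤ _ := pow_le_pow_right₀ hB (card_le_univ _)
  · rw [nsmul_eq_mul, card_powerset]
    push_cast
    gcongr
    · norm_num
    · exact card_le_univ _

theorem cr_mom {VB EB α β : Type} [Fintype VB] [DecidableEq VB] [Fintype EB] [DecidableEq EB]
    [Fintype α] [DecidableEq α] [Fintype β] [DecidableEq β] (eb : EB → VB × VB) (v k : ℕ)
    (ep : β → α × α) (hne : ∀ j, (ep j).1 ≠ (ep j).2) {Q : ℝ} (hQ : 1 ≤ Q) :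
    ∃ C : ℝ, 0 ≤ C ∧ ∀ (n M : ℕ) (L : Type) [DecidableEq L] (l : Fin M → L) (col : EB → L)
      (κ : ℝ), Function.Injective col → 0 < n → n ≤ M * Fintype.card β →
      (n : ℝ) ^ 2 ≤ κ * (M * Fintype.card β : ℕ) →
      (∀ a c : ℕ, a ≤ Fintype.card EB → c ≤ Fintype.card VB → (v - 2) * a < (k - 1) * c →
        κ ^ a ≤ (n : ℝ) ^ c) →
      ∀ f, (∀ F : Finset EB, f ∉ F → F.Nonempty →
        (v - 2) * F.card < (k - 1) * (vset eb F \ vset eb {f}).card) →
      𝔼 y : Fin M → α → Fin n,
        S2 eb f (fun g e => Q * den (sp ep y) (lay β l (col g)) e + 1) κ ≤ C := by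
  have hb : (0 : ℝ) ≤ Fintype.card β := Nat.cast_nonneg _
  have hQ0 : 0 ≤ Q := zero_le_one.trans hQ
  set C1 : ℝ := Q ^ 2 * (4 + 2 * Fintype.card β) with hC1
  have hC : 1 ≤ C1 := by nlinarith [mul_nonneg (sq_nonneg Q) hb]
  refine ⟨(Q + 1) * C1 ^ Fintype.card EB *
    (2 ^ Fintype.card EB * (Fintype.card VB + 1) ^ Fintype.card VB), by positivity,
    fun n M L _ l col κ hcol hn hM h2 hκ f hDC => ?_⟩
  have : Nonempty (Fin n) := ⟨⟨0, hn⟩⟩
  have hn' : (0 : ℝ) < n := by exact_mod_cast hn
  have h0 : 0 ≤ κ := by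
    have : (0 : ℝ) < (M * Fintype.card β : ℕ) := by exact_mod_cast hn.trans_le hM
    exact nonneg_of_mul_nonneg_left ((sq_nonneg _).trans h2) this
  simp only [S2]
  rw [expect_comm]
  refine ex_le (by positivity) fun e => ?_
  rw [expect_comm]
  refine ex_le (by positivity) fun x => ?_
  rw [expect_comm]
  refine le_trans (ex_mono fun x' => ?_) (((mul_expect _ _ _).symm.trans_le
    (mul_le_mul_of_nonneg_left (cr_match eb f hDC h0 (by simpa using hκ) e x) (by positivity))))
  let D : EB → (Fin M → α → Fin n) → Fin n × Fin n → ℝ := fun g y e =>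
    Q * den (sp ep y) (lay β l (col g)) e + 1
  let F : EB → (Fin M → α → Fin n) → ℝ := fun g y => if g = f then D f y e else
    D g y (exf eb (upd eb f x e) g) * D g y (exf eb (upd eb f x' e) g) +
      κ * D g y (exf eb (upd eb f x e) g) * ind (exf eb (upd eb f x e) g = exf eb (upd eb f x' e) g)
  have hD : ∀ g y e, 0 ≤ D g y e := fun g y e => by
    have := den_nonneg (sp ep y) (lay β l (col g)) e
    positivity
  have h3 := ex_prod_indep univ (fun g => univ.filter fun c => l c = col g)
    (fun g _ g2 _ h => disjoint_filter.2 fun c _ h1 h2 => h (hcol (h1.symm.trans h2))) F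
    fun g _ y y2 h => by
      have : D g y = D g y2 := by
        simp only [D]
        rw [den_congr (q2 := sp ep y2) fun i hi => by
          rw [sp, sp, h i.1 (by simpa [lay] using hi)]]
      by_cases hg : g = f
      · subst hg; simp only [F, this, if_true]
      · simp only [F, this, if_neg hg]
  simp only [← mul_prod_erase univ _ (mem_univ f)] at h3
  have h4 : ∀ g ∈ univ.erase f, ∀ y, F g y = _ := fun g hg y => if_neg (ne_of_mem_erase hg)
  have h5 : ∀ y, F f y = D f y e := fun y => if_pos rfl
  simp only [prod_congr rfl fun g hg => h4 g hg _, h5] at h3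
  refine h3.trans_le ?_
  rw [mul_assoc]
  refine mul_le_mul ?_ ?_ (prod_nonneg fun g hg => expect_nonneg fun y _ => ?_) (by positivity)
  · simp only [D, expect_add_distrib, ← mul_expect, Fintype.expect_const]
    have := mul_le_mul_of_nonneg_left (Mom_den hne (lay β l (col f)) e) hQ0
    linarith
  · calc _ ≤ ∏ g ∈ univ.erase f, C1 *
          (1 + κ * ind (Mom_M (exf eb (upd eb f x e) g) (exf eb (upd eb f x' e) g))) := by
          refine prod_le_prod (fun g hg => expect_nonneg fun y _ => ?_) fun g hg => ?_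
          · rw [h4 g hg]
            exact add_nonneg (mul_nonneg (hD _ _ _) (hD _ _ _))
              (mul_nonneg (mul_nonneg h0 (hD _ _ _)) (ind_nonneg _))
          · simp only [h4 g hg]
            exact Mom_fac hne _ _ _ hQ h0 (by simpa using hM) (by simpa using h2)
      _ ≤ _ := by
          rw [prod_mul_distrib, prod_const]
          exact mul_le_mul_of_nonneg_right (pow_le_pow_right₀ hC (card_le_univ _))
            (prod_nonneg fun g _ => by have := ind_nonneg (Mom_M (exf eb (upd eb f x e) g)
              (exf eb (upd eb f x' e) g)); positivity)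
  · rw [h4 g hg]
    exact add_nonneg (mul_nonneg (hD _ _ _) (hD _ _ _))
      (mul_nonneg (mul_nonneg h0 (hD _ _ _)) (ind_nonneg _))

end Pool.Agent.Work.MP_d4a230_co.U
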