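import Pool.Agent.Work.MP_d4a230_co.C.Count
import Pool.Agent.Work.MP_d4a230_co.S.Tree

/-!
The Lipschitz functional that measures how far an `H`-free set of variables with small degree
deficit can be from being `F`-free.
-/

namespace Pool.Agent.Work.MP_d4a230_co.U

open Finset Filter Topology Pool.Agent.Work.MP_07f1b5_pr
open scoped BigOperators

set_option linter.unusedSectionVars false

variable {W W0 : Type} [Fintype W] [DecidableEq W] [Fintype W0] [DecidableEq W0]
  (H : SimpleGraph W) [DecidableRel H.Adj] (F : SimpleGraph W0) [DecidableRel F.Adj]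
  {V : Type} [Fintype V] [DecidableEq V]

section gen

variable {I : Type} [Fintype I] [DecidableEq I]

/-- The positions of `R` contain no copy of `H`. -/
def Fr (q : I → Sym2 V) (R : Finset I) : Prop := ∀ T ∈ copies H V, ¬ T ⊆ R.image q

/-- Largest size of an `F`-free subset of `R`. -/
noncomputable def alF (q : I → Sym2 V) (R : Finset I) : ℝ :=
  univ.sup' univ_nonempty fun R2 : Finset I => ind (R2 ⊆ R ∧ Fr F q R2) * (R2.card : ℝ)

variable {F}

lemma al_ge {q : I → Sym2 V} {R R2 : Finset I} (h : R2 ⊆ R) (h2 : Fr F q R2) :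
    (R2.card : ℝ) ≤ alF F q R := by
  refine le_trans ?_ (le_sup' _ (mem_univ R2))
  rw [ind_pos ⟨h, h2⟩, one_mul]

lemma al_opt (hk : 0 < F.edgeFinset.card) (q : I → Sym2 V) (R : Finset I) :
    ∃ R2 ⊆ R, Fr F q R2 ∧ alF F q R = R2.card := by
  obtain ⟨R2, -, h⟩ := exists_mem_eq_sup' univ_nonempty fun R2 : Finset I =>
    ind (R2 ⊆ R ∧ Fr F q R2) * (R2.card : ℝ)
  by_cases hR : R2 ⊆ R ∧ Fr F q R2
  · exact ⟨R2, hR.1, hR.2, by rw [alF, h, ind_pos hR, one_mul]⟩
  · refine ⟨∅, empty_subset _, fun T hT hs => ?_, by rw [alF, h, ind_neg hR]; simp⟩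
    obtain ⟨f, -, rfl⟩ := mem_image.1 hT
    have := card_le_card hs
    rw [card_img, image_empty, card_empty] at this
    omega

end gen

/-- The functional. -/
noncomputable def psK (K d : ℝ) {N : ℕ} (y : Fin N → Bool → V) : ℝ :=
  univ.sup' univ_nonempty fun R : Finset (Fin N × Unit) => ind (Fr H (sp ep1 y) R) *
    max 0 (((R.card : ℝ) - alF F (sp ep1 y) R) / N - K * dfc d (den (sp ep1 y) R))

variable {H F} {K d : ℝ} {N : ℕ}

lemma ps_ge (y : Fin N → Bool → V) {R : Finset (Fin N × Unit)} (h : Fr H (sp ep1 y) R) :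
    ((R.card : ℝ) - alF F (sp ep1 y) R) / N - K * dfc d (den (sp ep1 y) R) ≤ psK H F K d y := by
  refine le_trans ?_ (le_sup' _ (mem_univ R))
  rw [ind_pos h, one_mul]
  exact le_max_right _ _

lemma ps_nonneg (y : Fin N → Bool → V) : 0 ≤ psK H F K d y := by
  refine le_trans ?_ (le_sup' _ (mem_univ ∅))
  exact mul_nonneg (ind_nonneg _) (le_max_left _ _)

lemma ps_le (y : Fin N → Bool → V) {t : ℝ} (ht : 0 ≤ t) (h : ∀ R, Fr H (sp ep1 y) R →
    ((R.card : ℝ) - alF F (sp ep1 y) R) / N - K * dfc d (den (sp ep1 y) R) ≤ t) :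
    psK H F K d y ≤ t := by
  refine sup'_le _ _ fun R _ => ?_
  by_cases e : Fr H (sp ep1 y) R
  · rw [ind_pos e, one_mul]; exact max_le ht (h R e)
  · rw [ind_neg e, zero_mul]; exact ht

lemma ps_one [Nonempty V] (hk : 0 < F.edgeFinset.card) (hK : 0 ≤ K) {y y2 : Fin N → Bool → V}
    (g : Fin N) (h : ∀ a, a ≠ g → y a = y2 a) : psK H F K d y - psK H F K d y2 ≤ (1 + K) / N := by
  rw [sub_le_iff_le_add']
  refine ps_le y (add_nonneg (ps_nonneg _) (by positivity)) fun R hR => ?_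
  have h3 : ∀ i ∈ R.erase (g, ()), sp ep1 y i = sp ep1 y2 i := fun i hi => by
    unfold sp
    rw [h i.1 fun e => (mem_erase.1 hi).1 (Prod.ext e rfl)]
  have h4 := ps_ge (H := H) (F := F) (K := K) (d := d) y2 (R := R.erase (g, ())) fun T hT hs =>
    hR T hT (by
      rw [← image_congr fun i hi => h3 i hi] at hs
      exact hs.trans (image_subset_image (erase_subset _ _)))
  rw [← den_congr h3] at h4
  have h5 : alF F (sp ep1 y2) (R.erase (g, ())) ≤ alF F (sp ep1 y) R := by
    obtain ⟨R2, a1, a2, a3⟩ := al_opt hk (sp ep1 y2) (R.erase (g, ()))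
    rw [a3]
    refine al_ge (a1.trans (erase_subset _ _)) fun T hT hs => a2 T hT ?_
    rwa [← image_congr fun i hi => h3 i (a1 hi)]
  have h6 : (R.card : ℝ) ≤ (R.erase (g, ())).card + 1 := by
    have := pred_card_le_card_erase (s := R) (a := (g, ()))
    exact_mod_cast (by omega : R.card ≤ (R.erase (g, ())).card + 1)
  have h7 := (dfc_cut d (den (sp ep1 y) R) (den (sp ep1 y) (R.erase (g, ())))).trans
    (add_le_add le_rfl (cut_le_l1 _))
  have h8 : 𝔼 e, |den (sp ep1 y) R e - den (sp ep1 y) (R.erase (g, ())) e| =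
      ((R.card : ℝ) - (R.erase (g, ())).card) / N := by
    rw [expect_congr rfl fun e _ => abs_of_nonneg (sub_nonneg.2 (den_mono _ (erase_subset _ _) e)),
      expect_sub_distrib, ex_den, ex_den, sub_div]
    simp
  have hN : (0 : ℝ) ≤ N := Nat.cast_nonneg _
  have h9 : ((R.card : ℝ) - (R.erase (g, ())).card) / N ≤ 1 / N :=
    div_le_div_of_nonneg_right (by linarith only [h6]) hN
  have h10 : ((R.card : ℝ) - alF F (sp ep1 y) R) / N ≤
      (((R.erase (g, ())).card - alF F (sp ep1 y2) (R.erase (g, ()))) + 1) / N :=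
    div_le_div_of_nonneg_right (by linarith only [h5, h6]) hN
  have h11 := mul_le_mul_of_nonneg_left (h7.trans (add_le_add le_rfl (h8.trans_le h9))) hK
  rw [add_div] at h10 ⊢
  rw [mul_add, mul_one_div] at h11
  linarith only [h4, h10, h11]

lemma ps_lip [Nonempty V] (hk : 0 < F.edgeFinset.card) (hK : 0 ≤ K) (y : Fin N → Bool → V)
    (g : Fin N) (z : Bool → V) :
    |psK H F K d (Function.update y g z) - psK H F K d y| ≤ (1 + K) / N := by
  refine abs_sub_le_iff.2 ⟨ps_one hk hK g fun a ha => ?_, ps_one hk hK g fun a ha => ?_⟩ <;>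
    rw [Function.update_of_ne ha]

section cnt

variable {G EB : Type} [Fintype G] [DecidableEq G] [Fintype EB] [DecidableEq EB]

lemma cr_zero (eb : EB → W × W) (hs : ∀ e ∈ H.edgeFinset, ∃ f, s((eb f).1, (eb f).2) = e)
    {q : G × Unit → Sym2 V} {R : Finset (G × Unit)} (h : Fr H q R) :
    Cnt eb q (fun x => ind (Function.Injective x)) (fun _ => R) = 0 := by
  refine mul_eq_zero_of_right _ (expect_eq_zero fun x _ => ?_)
  by_cases hx : Function.Injective x
  · refine mul_eq_zero_of_right _ (sum_eq_zero fun ι _ => mul_eq_zero_of_right _ ?_)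
    by_contra h0
    refine h _ (mem_image_of_mem _ (mem_univ ⟨x, hx⟩)) (image_subset_iff.2 fun e he => ?_)
    obtain ⟨f, rfl⟩ := hs e he
    have h1 := prod_ne_zero_iff.1 h0 f (mem_univ f)
    refine mem_image.2 ⟨ι f, by_contra fun h2 => left_ne_zero_of_mul h1 (ind_neg h2), ?_⟩
    exact Mom_hit_eq (right_ne_zero_of_mul h1)
  · exact mul_eq_zero_of_left (ind_neg hx) _

lemma cr_tau [Nonempty V] (eb : EB → W0 × W0)
    (hi : Function.Injective fun f => s((eb f).1, (eb f).2))
    (hm : ∀ f, s((eb f).1, (eb f).2) ∈ F.edgeFinset) (f0 : EB) (q : G × Unit → Sym2 V)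
    (R : Finset (G × Unit)) :
    ((Fintype.card V : ℝ) ^ 2 / (2 * Fintype.card (G × Unit))) ^ Fintype.card EB *
      ((R.card : ℝ) - alF F q R) ≤
      (Fintype.card V : ℝ) ^ Fintype.card W0 * Cnt eb q (fun _ => 1) (fun _ => R) := by
  classical
  let S := univ.filter fun ι : EB → G × Unit => ∃ x : W0 → V, Function.Injective x ∧
    ∀ f, ι f ∈ R ∧ q (ι f) = s(x (eb f).1, x (eb f).2)
  have h1 : Fr F q (R \ S.image fun ι => ι f0) := fun T hT hs => by
    obtain ⟨x, -, rfl⟩ := mem_image.1 hT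
    have h2 : ∀ f, ∃ i ∈ R \ S.image fun ι => ι f0, q i = s(x (eb f).1, x (eb f).2) := fun f =>
      mem_image.1 (hs (mem_image_of_mem (Sym2.map x) (hm f)))
    choose ι a1 a2 using h2
    exact (mem_sdiff.1 (a1 f0)).2 (mem_image.2 ⟨ι, mem_filter.2 ⟨mem_univ _, x, x.injective,
      fun f => ⟨(mem_sdiff.1 (a1 f)).1, a2 f⟩⟩, rfl⟩)
  have h2 : (R.card : ℝ) - alF F q R ≤ S.card := by
    have a1 := al_ge sdiff_subset h1
    have a2 := le_card_sdiff (S.image fun ι => ι f0) R
    have a3 := card_image_le (s := S) (f := fun ι => ι f0)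
    have a4 : (R.card : ℝ) ≤ (R \ S.image fun ι => ι f0).card + S.card := by
      exact_mod_cast (by omega : R.card ≤ (R \ S.image fun ι => ι f0).card + S.card)
    linarith only [a1, a4]
  have t0 : ∀ (x : W0 → V) (ι : EB → G × Unit), 0 ≤ ind (Function.Injective fun f => (ι f).1) *
      ∏ f, ind (ι f ∈ R) * hit (q (ι f)) (exf eb x f) := fun x ι =>
    mul_nonneg (ind_nonneg _) (prod_nonneg fun f _ => mul_nonneg (ind_nonneg _) (hit_nonneg _ _))
  have h3 : (S.card : ℝ) ≤ ∑ x : W0 → V, 1 * ∑ ι : EB → G × Unit,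
      ind (Function.Injective fun f => (ι f).1) *
        ∏ f, ind (ι f ∈ R) * hit (q (ι f)) (exf eb x f) := by
    simp only [one_mul]
    rw [sum_comm, ← P1_sum_mem]
    refine sum_le_sum fun ι _ => ?_
    by_cases e : ι ∈ S
    · obtain ⟨x, hx, e2⟩ := (mem_filter.1 e).2
      refine le_trans ?_ (single_le_sum (fun x _ => t0 x ι) (mem_univ x))
      rw [ind_pos e, ind_pos, one_mul]
      · refine le_trans (le_of_eq prod_const_one.symm)
          (prod_le_prod (fun _ _ => zero_le_one) fun f _ => ?_)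
        rw [ind_pos (e2 f).1, one_mul, hit, ind_pos (q := q (ι f) = s((exf eb x f).1, (exf eb x f).2))
          (e2 f).2, one_mul]
        exact le_add_of_nonneg_right (ind_nonneg _)
      · intro f g e3
        have e4 : ι f = ι g := Prod.ext e3 rfl
        refine hi (Sym2.map.injective hx ?_)
        simp only [Sym2.map_mk]
        rw [← (e2 f).2, ← (e2 g).2, e4]
    · rw [ind_neg e]
      exact sum_nonneg fun x _ => t0 x ι
  rw [Cnt, mul_left_comm, ← Nat.cast_pow _ (Fintype.card W0), ← Fintype.card_fun,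
    Fintype.card_mul_expect]
  exact mul_le_mul_of_nonneg_left (h2.trans h3) (by positivity)

end cnt

section det

lemma cr_dg {S1 S2 S3 : Finset (Sym2 V)} (h : offd V ∩ S1 ⊆ S2 ∪ S3) (v : V) :
    dgE S1 v ≤ dgE S2 v + dgE S3 v := by
  unfold dgE
  rw [← sum_add_distrib]
  refine sum_le_sum fun a ha => (ind_mono fun h1 => mem_union.1 (h (mem_inter.2 ⟨?_, h1⟩))).trans
    (ind_or_le _ _)
  exact mem_filter.2 ⟨mem_univ _, fun e => (mem_erase.1 ha).1 (Sym2.mk_isDiag_iff.1 e).symm⟩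

lemma cr_hs (S : Finset (Sym2 V)) : ∑ v, dgE S v ≤ 2 * (S.card : ℝ) := by
  unfold dgE
  rw [handshake fun e => ind (e ∈ S), sum_ind, filter_mem_eq_inter]
  exact mul_le_mul_of_nonneg_left (by exact_mod_cast card_le_card inter_subset_right) zero_le_two

lemma cr_deg {M : ℕ} (q : Fin M × Unit → Sym2 V) (R : Finset (Fin M × Unit)) (hM : (0 : ℝ) < M)
    (v : V) : dgE (R.image q) v ≤ 2 * M / Fintype.card V * 𝔼 b, den q R (v, b) := by
  have hV : (0 : ℝ) < Fintype.card V := Nat.cast_pos.2 (Fintype.card_pos_iff.2 ⟨v⟩)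
  have e1 : 2 * M / Fintype.card V * 𝔼 b, den q R (v, b) = ∑ b, ∑ i ∈ R, hit (q i) (v, b) := by
    unfold den
    rw [Fintype.expect_eq_sum_div_card, ← mul_sum, Fintype.card_prod, Fintype.card_fin,
      Fintype.card_unit, mul_one]
    field_simp
  rw [e1]
  refine le_trans (sum_le_sum fun b _ => ?_) (sum_le_sum_of_subset_of_nonneg (erase_subset v _)
    fun b _ _ => sum_nonneg fun i _ => hit_nonneg _ _)
  by_cases h : s(v, b) ∈ R.image q
  · obtain ⟨i, hi, e⟩ := mem_image.1 h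
    refine le_trans ?_ (single_le_sum (fun i _ => hit_nonneg (q i) (v, b)) hi)
    rw [ind_pos h, hit, ind_pos e, one_mul]
    exact le_add_of_nonneg_right (ind_nonneg _)
  · rw [ind_neg h]
    exact sum_nonneg fun i _ => hit_nonneg _ _

lemma cr_pt [Nonempty V] (hk : 0 < F.edgeFinset.card) (hK : 0 ≤ K) {M : ℕ}
    {y : Fin M → Bool → V} (hy : Inj y) {ω ω2 : Finset (Sym2 V)} (h1 : ∀ i, sp ep1 y i ∈ ω)
    (h2 : ω2 ⊆ ω) (h3 : ∀ T ∈ copies H V, ¬ T ⊆ ω2) (hM : (0 : ℝ) < M) {z η t : ℝ}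
    (hz : ∀ v, z ≤ dgE ω2 v) (hη : ((ω ∩ offd V).card : ℝ) ≤ (1 + η) * M)
    (hd : 2 * M / Fintype.card V * d ≤ z) (ht : psK H F K d y ≤ t) :
    ∃ R2 ⊆ ω, (∀ T ∈ copies F V, ¬ T ⊆ R2) ∧ ∃ L : V → ℝ, (∀ v, 0 ≤ L v) ∧
      (∀ v, z - L v ≤ dgE R2 v) ∧ ∑ v, L v ≤ 2 * ((η + t + K * η) * M) := by
  have hV : (0 : ℝ) < Fintype.card V := Nat.cast_pos.2 Fintype.card_pos
  have d0 : ∀ (S : Finset (Sym2 V)) v, 0 ≤ dgE S v := fun S v => sum_nonneg fun _ _ => ind_nonneg _
  set R := univ.filter fun i => sp ep1 y i ∈ ω2 with hR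
  set X := (ω ∩ offd V) \ univ.image (sp ep1 y) with hX
  have e2 : univ.image (sp ep1 y) ⊆ ω ∩ offd V := image_subset_iff.2 fun i _ =>
    mem_inter.2 ⟨h1 i, mem_filter.2 ⟨mem_univ _, hy.2 i.1⟩⟩
  have e3 := card_sdiff_add_card_eq_card e2
  rw [card_image_of_injective _ hy.1, card_univ, Fintype.card_prod, Fintype.card_fin,
    Fintype.card_unit, mul_one] at e3
  have e5 : (X.card : ℝ) ≤ η * M := by
    rw [← e3] at hη
    push_cast at hη
    linarith only [hη]
  have e4 : offd V ∩ ω2 ⊆ R.image (sp ep1 y) ∪ X := fun e he => by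
    by_cases h : e ∈ univ.image (sp ep1 y)
    · obtain ⟨i, -, rfl⟩ := mem_image.1 h
      exact mem_union_left _
        (mem_image_of_mem _ (mem_filter.2 ⟨mem_univ _, (mem_inter.1 he).2⟩))
    · exact mem_union_right _
        (mem_sdiff.2 ⟨mem_inter.2 ⟨h2 (mem_inter.1 he).2, (mem_inter.1 he).1⟩, h⟩)
  have f1 : Fr H (sp ep1 y) R := fun T hT hs =>
    h3 T hT (hs.trans (image_subset_iff.2 fun i hi => (mem_filter.1 hi).2))
  have f2 : dfc d (den (sp ep1 y) R) ≤ η := by
    have a1 : ∀ v, max (d - 𝔼 b, den (sp ep1 y) R (v, b)) 0 ≤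
        Fintype.card V / (2 * M) * dgE X v := fun v => by
      refine max_le ?_ (mul_nonneg (by positivity) (d0 _ _))
      have a2 := ((hd.trans (hz v)).trans (cr_dg e4 v)).trans
        (add_le_add (cr_deg (sp ep1 y) R hM v) le_rfl)
      rw [div_mul_eq_mul_div, le_div_iff₀ (by positivity)]
      rw [← sub_le_iff_le_add', ← mul_sub, div_mul_eq_mul_div, div_le_iff₀ hV] at a2
      linarith only [a2]
    refine (ex_mono a1).trans ?_
    rw [← mul_expect, Fintype.expect_eq_sum_div_card, div_mul_div_comm, mul_comm (2 * (M : ℝ)),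
      mul_div_mul_left _ _ hV.ne', div_le_iff₀ (by positivity)]
    linarith only [cr_hs X, e5]
  obtain ⟨R2, a1, a2, a3⟩ := al_opt hk (sp ep1 y) R
  have f3 := (ps_ge (F := F) (K := K) (d := d) y f1).trans ht
  have f4 : ((R \ R2).card : ℝ) ≤ (t + K * η) * M := by
    have a4 : ((R \ R2).card : ℝ) + R2.card = R.card := by
      exact_mod_cast card_sdiff_add_card_eq_card a1
    rw [← div_le_iff₀ hM, eq_sub_of_add_eq a4, ← a3]
    linarith only [f3, mul_le_mul_of_nonneg_left f2 hK]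
  refine ⟨R2.image (sp ep1 y), image_subset_iff.2 fun i _ => h1 i, a2,
    dgE ((R \ R2).image (sp ep1 y) ∪ X), d0 _, fun v => ?_, (cr_hs _).trans ?_⟩
  · rw [sub_le_iff_le_add]
    refine (hz v).trans (cr_dg (e4.trans (le_of_eq ?_)) v)
    rw [← union_assoc, ← image_union, union_sdiff_of_subset a1]
  · have a5 : (((R \ R2).image (sp ep1 y) ∪ X).card : ℝ) ≤ (R \ R2).card + X.card := by
      exact_mod_cast (card_union_le _ _).trans (Nat.add_le_add_right card_image_le _)
    linarith only [a5, f4, e5]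

end det

end Pool.Agent.Work.MP_d4a230_co.U
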